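import Pool.Agent.GSH.Simple

set_option autoImplicit false

namespace Pool.Agent.Results.MP_1ffbee_lc.GroupStars

open Pool.Agent.GSH

/-- For a language `L` whose syntactic monoid is a group, `L` has generalized star height at
most `n + 1` if and only if `L` is a finite Boolean combination of two-sided quotients of stars
of languages of height at most `n`. -/
theorem result {A : Type} (n : ℕ) (L : Set (List A)) (hL : IsGroupLang L) :
    Ht (n + 1) L ↔
      L ∈ BooleanSubalgebra.closure
        {X : Set (List A) | ∃ (K : Set (List A)) (u v : List A),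
          Ht n K ∧ X = {w | u ++ w ++ v ∈ star K}} := by
  constructor
  · intro h
    obtain ⟨F, hF, h1, h2⟩ := hL.refine h
    have hfin : (⋃ K ∈ F, quots (star K)).Finite :=
      hF.biUnion (fun K hK => ((h1 K hK).star.finData).quots_finite)
    have h3 := mem_closure_of_determined hfin (L := L) (by
      intro w w' hw hwL
      have h4 : Cg (star '' F) w w' := by
        rintro _ ⟨K, hK, rfl⟩ x y
        exact hw {v | x ++ v ++ y ∈ star K} (Set.mem_biUnion hK ⟨x, y, rfl⟩)
      have := h2 w w' h4 L rfl [] []
      simpa using this.1 (by simpa using hwL))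
    refine BooleanSubalgebra.closure_mono ?_ h3
    intro X hX
    obtain ⟨K, hK, u, v, rfl⟩ := Set.mem_iUnion₂.1 hX
    exact ⟨K, u, v, h1 K hK, rfl⟩
  · intro h
    refine BooleanSubalgebra.closure_bot_sup_induction (p := fun X _ => Ht (n + 1) X)
      ?_ ?_ ?_ ?_ h
    · rintro X ⟨K, u, v, hK, rfl⟩
      exact hK.star.quot u v
    · exact Ht.empty _
    · intro a _ b _ ha hb
      exact ha.union hb
    · intro a _ ha
      exact ha.compl

end Pool.Agent.Results.MP_1ffbee_lc.GroupStars
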