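import Pool.Agent.GSHR.Crit

set_option autoImplicit false

namespace Pool.Agent.Results.MP_1ffbee_lc.MonolithReduction

open Pool.Agent.GSH

/-- the two words have the same contexts in `L` (syntactic congruence of `L`) -/
def SynEq {A : Type} (L : Set (List A)) (w w' : List A) : Prop :=
  ∀ x y : List A, x ++ w ++ y ∈ L ↔ x ++ w' ++ y ∈ L

/-- The class of the word `w` belongs to the maximal subgroup with identity (the class of) `e`
of the syntactic monoid of `L`; here `e` is idempotent modulo `L`. -/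
def InGroup {A : Type} (L : Set (List A)) (e w : List A) : Prop :=
  SynEq L (e ++ w ++ e) w ∧ ∃ y : List A, SynEq L (w ++ y) e ∧ SynEq L (y ++ w) e

/-- `e` is idempotent modulo `L`, and `val` identifies the maximal subgroup with identity `e` of
the syntactic monoid of `L` with the group `G`. -/
structure IsMaxSubgroup {A G : Type} [Group G] (L : Set (List A)) (e : List A)
    (val : List A → G) : Prop where
  idem : SynEq L (e ++ e) e
  mul : ∀ w w' : List A, InGroup L e w → InGroup L e w' → val (w ++ w') = val w * val w'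
  onto : ∀ g : G, ∃ w : List A, InGroup L e w ∧ val w = g
  inj : ∀ w w' : List A, InGroup L e w → InGroup L e w' → (val w = val w' ↔ SynEq L w w')

/-- the local monoid at an idempotent -/
def LocM {M : Type} [Monoid M] (x : M) : Type := {y : M // x * y = y ∧ y * x = y}

section local_monoid

variable {M : Type} [Monoid M] {x : M}

/-- the local monoid structure -/
@[reducible] def locMonoid (hx : x * x = x) : Monoid (LocM x) where
  mul y z := ⟨y.1 * z.1, by rw [← mul_assoc, y.2.1], by rw [mul_assoc, z.2.2]⟩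
  one := ⟨x, hx, hx⟩
  mul_assoc y z w := Subtype.ext (mul_assoc _ _ _)
  one_mul y := Subtype.ext y.2.1
  mul_one y := Subtype.ext y.2.2

end local_monoid

theorem synEq_iff {A : Type} {L : Set (List A)} {w w' : List A} :
    SynEq L w w' ↔ Pool.Agent.GSHR.cls {L} w = Pool.Agent.GSHR.cls {L} w' := by
  rw [Pool.Agent.GSHR.cls_eq]
  constructor
  · rintro h _ rfl x y
    exact h x y
  · intro h x y
    exact h L rfl x y

/-- every idempotent of a finite syntactic monoid has its maximal subgroup -/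
theorem exists_max {A : Type} {L : Set (List A)} (hL : FinData L) {e : List A}
    (he : SynEq L (e ++ e) e) :
    ∃ (G : Type) (_ : Group G) (_ : Finite G) (val : List A → G), IsMaxSubgroup L e val := by
  classical
  have hfin : Finite (Pool.Agent.GSHR.Syn ({L} : Set (Set (List A)))) :=
    Pool.Agent.GSHR.syn_finite (Set.finite_singleton _) (by rintro _ rfl; exact hL)
  set x := Pool.Agent.GSHR.cls {L} e with hxdef
  have hx : x * x = x := by
    rw [hxdef, ← Pool.Agent.GSHR.cls_append, ← synEq_iff]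
    exact he
  let mon : Monoid (LocM x) := locMonoid hx
  have hfinL : Finite (LocM x) := by unfold LocM; infer_instance
  have key : ∀ w, InGroup L e w ↔ ∃ g : (LocM x)ˣ, g.1.1 = Pool.Agent.GSHR.cls {L} w := by
    intro w
    constructor
    · rintro ⟨h1, y, h2, h3⟩
      rw [synEq_iff] at h1 h2 h3
      simp only [Pool.Agent.GSHR.cls_append, ← hxdef] at h1 h2 h3
      set a := Pool.Agent.GSHR.cls {L} w
      set z := Pool.Agent.GSHR.cls {L} y
      have ha1 : x * a = a := by
        conv_lhs => rw [← h1]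
        rw [← mul_assoc, ← mul_assoc, hx, h1]
      have ha2 : a * x = a := by
        conv_lhs => rw [← h1]
        rw [mul_assoc, hx, h1]
      refine ⟨⟨⟨a, ha1, ha2⟩, ⟨x * z * x, ?_, ?_⟩, ?_, ?_⟩, rfl⟩
      · rw [← mul_assoc, ← mul_assoc, hx]
      · rw [mul_assoc, hx]
      · apply Subtype.ext
        show a * (x * z * x) = x
        rw [← mul_assoc, ← mul_assoc, ha2, h2, hx]
      · apply Subtype.ext
        show x * z * x * a = x
        rw [mul_assoc, ha1, mul_assoc, h3, hx]
    · rintro ⟨g, hg⟩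
      obtain ⟨y, hy⟩ := Pool.Agent.GSHR.cls_surj (g⁻¹).1.1
      refine ⟨?_, y, ?_, ?_⟩
      · rw [synEq_iff]
        simp only [Pool.Agent.GSHR.cls_append, ← hxdef]
        rw [← hg, g.1.2.1, g.1.2.2]
      · rw [synEq_iff]
        simp only [Pool.Agent.GSHR.cls_append, ← hxdef]
        rw [← hg, hy]
        exact congrArg Subtype.val g.mul_inv
      · rw [synEq_iff]
        simp only [Pool.Agent.GSHR.cls_append, ← hxdef]
        rw [← hg, hy]
        exact congrArg Subtype.val g.inv_mul
  let val : List A → (LocM x)ˣ := fun w =>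
    if h : ∃ g : (LocM x)ˣ, g.1.1 = Pool.Agent.GSHR.cls {L} w then h.choose else 1
  have hval : ∀ w, InGroup L e w → (val w).1.1 = Pool.Agent.GSHR.cls {L} w := by
    intro w hw
    have h := (key w).1 hw
    show (if h : ∃ g : (LocM x)ˣ, g.1.1 = Pool.Agent.GSHR.cls {L} w
      then h.choose else 1).1.1 = _
    rw [dif_pos h]
    exact h.choose_spec
  have hext : ∀ g g' : (LocM x)ˣ, g.1.1 = g'.1.1 → g = g' := fun g g' h =>
    Units.ext (Subtype.ext h)
  refine ⟨(LocM x)ˣ, inferInstance, inferInstance, val, ⟨he, ?_, ?_, ?_⟩⟩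
  · intro w w' hw hw'
    apply hext
    have hww : InGroup L e (w ++ w') := by
      rw [key]
      obtain ⟨g, hg⟩ := (key w).1 hw
      obtain ⟨g', hg'⟩ := (key w').1 hw'
      refine ⟨g * g', ?_⟩
      show g.1.1 * g'.1.1 = _
      rw [hg, hg', Pool.Agent.GSHR.cls_append]
    rw [hval _ hww]
    show _ = (val w).1.1 * (val w').1.1
    rw [hval _ hw, hval _ hw', Pool.Agent.GSHR.cls_append]
  · intro g
    obtain ⟨w, hw⟩ := Pool.Agent.GSHR.cls_surj g.1.1
    have h1 : InGroup L e w := (key w).2 ⟨g, hw.symm⟩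
    exact ⟨w, h1, hext _ _ (by rw [hval _ h1, hw])⟩
  · intro w w' hw hw'
    rw [synEq_iff, ← hval w hw, ← hval w' hw']
    exact ⟨fun h => by rw [h], fun h => hext _ _ h⟩

theorem inGroup_mul {A : Type} {L : Set (List A)} {e : List A} (hidem : SynEq L (e ++ e) e)
    {u v : List A} (hu : InGroup L e u) (hv : InGroup L e v) : InGroup L e (u ++ v) := by
  obtain ⟨hu1, y, hu2, hu3⟩ := hu
  obtain ⟨hv1, z, hv2, hv3⟩ := hv
  have he := hidem
  rw [synEq_iff] at hu1 hu2 hu3 hv1 hv2 hv3 he
  simp only [Pool.Agent.GSHR.cls_append] at hu1 hu2 hu3 hv1 hv2 hv3 he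
  set x := Pool.Agent.GSHR.cls {L} e
  set a := Pool.Agent.GSHR.cls {L} u
  set b := Pool.Agent.GSHR.cls {L} v
  have ha1 : x * a = a := by
    conv_lhs => rw [← hu1]
    rw [← mul_assoc, ← mul_assoc, he, hu1]
  have ha2 : a * x = a := by
    conv_lhs => rw [← hu1]
    rw [mul_assoc, he, hu1]
  have hb1 : x * b = b := by
    conv_lhs => rw [← hv1]
    rw [← mul_assoc, ← mul_assoc, he, hv1]
  have hb2 : b * x = b := by
    conv_lhs => rw [← hv1]
    rw [mul_assoc, he, hv1]
  refine ⟨?_, z ++ e ++ y, ?_, ?_⟩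
  · rw [synEq_iff]
    simp only [Pool.Agent.GSHR.cls_append]
    rw [← mul_assoc, ha1, mul_assoc, hb2]
  · rw [synEq_iff]
    simp only [Pool.Agent.GSHR.cls_append]
    calc a * b * (Pool.Agent.GSHR.cls {L} z * x * Pool.Agent.GSHR.cls {L} y)
        = a * (b * Pool.Agent.GSHR.cls {L} z) * x * Pool.Agent.GSHR.cls {L} y := by
          simp only [mul_assoc]
      _ = x := by rw [hv2, mul_assoc a, he, ha2, hu2]
  · rw [synEq_iff]
    simp only [Pool.Agent.GSHR.cls_append]
    calc Pool.Agent.GSHR.cls {L} z * x * Pool.Agent.GSHR.cls {L} y * (a * b)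
        = Pool.Agent.GSHR.cls {L} z * (x * (Pool.Agent.GSHR.cls {L} y * a)) * b := by
          simp only [mul_assoc]
      _ = x := by rw [hu3, he, mul_assoc, hb1, hv3]

theorem finite_of_max {A : Type} {L : Set (List A)} (hL : FinData L) {G : Type} [Group G]
    {e : List A} {val : List A → G} (hmax : IsMaxSubgroup L e val) : Finite G := by
  have hfin : Finite (Pool.Agent.GSHR.Syn ({L} : Set (Set (List A)))) :=
    Pool.Agent.GSHR.syn_finite (Set.finite_singleton _) (by rintro _ rfl; exact hL)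
  choose w hw1 hw2 using hmax.onto
  refine Finite.of_injective (fun g => Pool.Agent.GSHR.cls {L} (w g)) ?_
  intro g g' h
  have h1 := (hmax.inj _ _ (hw1 g) (hw1 g')).2 (synEq_iff.2 h)
  rwa [hw2, hw2] at h1

theorem criterion_all {A : Type} [Finite A] {n : ℕ} {L : Set (List A)} (hL : FinData L)
    (hR : ∀ (G : Type) [Group G] (e : List A) (val : List A → G), IsMaxSubgroup L e val →
      ∃ F : Set (Set (List A)), F.Finite ∧ (∀ K ∈ F, Ht n K) ∧
        ∀ w w' : List A, InGroup L e w → InGroup L e w' →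
          (∀ K ∈ F, SynEq (star K) w w') → val w = val w') : Ht (n + 1) L := by
  classical
  have hfin : Finite (Pool.Agent.GSHR.Syn ({L} : Set (Set (List A)))) :=
    Pool.Agent.GSHR.syn_finite (Set.finite_singleton _) (by rintro _ rfl; exact hL)
  -- one representing word for each idempotent
  let E : Type := {x : Pool.Agent.GSHR.Syn ({L} : Set (Set (List A))) // x * x = x}
  have hw : ∀ x : E, ∃ e : List A, Pool.Agent.GSHR.cls {L} e = x.1 := fun x =>
    Pool.Agent.GSHR.cls_surj x.1
  choose wd hwd using hw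
  have hmax : ∀ x : E, ∃ (G : Type) (_ : Group G) (_ : Finite G) (val : List A → G),
      IsMaxSubgroup L (wd x) val := by
    intro x
    apply exists_max hL
    rw [synEq_iff, Pool.Agent.GSHR.cls_append, hwd, x.2]
  choose G hG hGf val hval using hmax
  choose F hF1 hF2 hF3 using fun x : E => hR (G x) (wd x) (val x) (hval x)
  have hEfin : Finite E := by show Finite {x // _}; infer_instance
  refine Pool.Agent.GSHR.criterion hL (F := ⋃ x : E, F x) (Set.finite_iUnion hF1) (by
    intro K hK
    obtain ⟨x, hx⟩ := Set.mem_iUnion.1 hK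
    exact hF2 x K hx) ?_
  intro u hu
  obtain ⟨k, hk, hk2⟩ := exists_idem_pow (S := {L}) (Set.finite_singleton _)
    (by rintro _ rfl; exact hL) u
  obtain ⟨k, rfl⟩ : ∃ d, k = d + 1 := ⟨k - 1, by omega⟩
  refine ⟨k + 1, ?_⟩
  set a := Pool.Agent.GSHR.cls {L} u with ha
  have hak : a ^ (k + 1) * a ^ (k + 1) = a ^ (k + 1) := by
    have := Pool.Agent.GSHR.cls_eq.2 hk2
    rw [Pool.Agent.GSHR.cls_append, Pool.Agent.GSHR.cls_rep] at this
    exact this.symm
  let x : E := ⟨a ^ (k + 1), hak⟩
  have hx : Pool.Agent.GSHR.cls {L} (wd x) = a ^ (k + 1) := hwd x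
  have g1 : InGroup L (wd x) (rep (k + 1) u) := by
    refine ⟨?_, rep (k + 1) u, ?_, ?_⟩
    · rw [synEq_iff]
      simp only [Pool.Agent.GSHR.cls_append, Pool.Agent.GSHR.cls_rep, hx]
      rw [hak, hak]
    · rw [synEq_iff]
      simp only [Pool.Agent.GSHR.cls_append, Pool.Agent.GSHR.cls_rep, hx]
      exact hak
    · rw [synEq_iff]
      simp only [Pool.Agent.GSHR.cls_append, Pool.Agent.GSHR.cls_rep, hx]
      exact hak
  have hpow : ∀ j, a ^ (k + 1) * a ^ (k + 1 + j) = a ^ (k + 1 + j) := by
    intro j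
    rw [pow_add a (k + 1) j, ← mul_assoc, hak]
  have hpow' : ∀ j, a ^ (k + 1 + j) * a ^ (k + 1) = a ^ (k + 1 + j) := by
    intro j
    rw [← pow_add, add_comm (k + 1 + j) (k + 1), pow_add, hpow]
  have g2 : InGroup L (wd x) (rep (k + 1 + 1) u) := by
    refine ⟨?_, rep (k + 1 + k) u, ?_, ?_⟩
    · rw [synEq_iff]
      simp only [Pool.Agent.GSHR.cls_append, Pool.Agent.GSHR.cls_rep, hx]
      rw [hpow 1, hpow' 1]
    · rw [synEq_iff]
      simp only [Pool.Agent.GSHR.cls_append, Pool.Agent.GSHR.cls_rep, hx]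
      rw [← pow_add, show k + 1 + 1 + (k + 1 + k) = (k + 1) + (k + 1) + (k + 1) by ring,
        pow_add, pow_add, hak, hak]
    · rw [synEq_iff]
      simp only [Pool.Agent.GSHR.cls_append, Pool.Agent.GSHR.cls_rep, hx]
      rw [← pow_add, show k + 1 + k + (k + 1 + 1) = (k + 1) + (k + 1) + (k + 1) by ring,
        pow_add, pow_add, hak, hak]
  have h1 : val x (rep (k + 1) u) = val x (rep (k + 1 + 1) u) := by
    refine hF3 x _ _ g1 g2 (fun K hK y z => ?_)
    have hc : Cg (star '' (⋃ x : E, F x)) (rep (k + 1) u) (rep (k + 1 + 1) u) := by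
      rw [rep_succ (k + 1), rep_succ k, ← List.append_assoc]
      exact hu.append (Cg.refl _ _)
    exact hc (star K) ⟨K, Set.mem_iUnion.2 ⟨x, hK⟩, rfl⟩ y z
  have h2 := ((hval x).inj _ _ g1 g2).1 h1
  rintro _ rfl y z
  exact (h2 y z).symm

theorem SynEq.refl {A : Type} (L : Set (List A)) (u : List A) : SynEq L u u := fun _ _ => Iff.rfl

theorem SynEq.symm {A : Type} {L : Set (List A)} {u v : List A} (h : SynEq L u v) :
    SynEq L v u := fun x y => (h x y).symm

theorem SynEq.trans {A : Type} {L : Set (List A)} {u v w : List A} (h : SynEq L u v)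
    (h' : SynEq L v w) : SynEq L u w := fun x y => (h x y).trans (h' x y)

theorem SynEq.ctx {A : Type} {L : Set (List A)} {u v : List A} (h : SynEq L u v)
    (x y : List A) : SynEq L (x ++ u ++ y) (x ++ v ++ y) := by
  intro a b
  have := h (a ++ x) (y ++ b)
  simpa only [List.append_assoc] using this

theorem SynEq.append {A : Type} {L : Set (List A)} {u v u' v' : List A} (h : SynEq L u v)
    (h' : SynEq L u' v') : SynEq L (u ++ u') (v ++ v') := by
  have e1 := h.ctx [] u'
  have e2 := h'.ctx v []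
  simp only [List.nil_append, List.append_nil] at e1 e2
  exact e1.trans e2

theorem InGroup.congr {A : Type} {L : Set (List A)} {e u v : List A} (h : SynEq L u v)
    (hu : InGroup L e u) : InGroup L e v := by
  obtain ⟨h1, y, h2, h3⟩ := hu
  exact ⟨(((h.ctx e e).symm.trans h1).trans h), y,
    (h.append (SynEq.refl L y)).symm.trans h2, ((SynEq.refl L y).append h).symm.trans h3⟩

/-- one-sided inverses in the local monoid of a finite monoid are two-sided -/
theorem local_inv {S : Type} [Monoid S] [Finite S] {e a r : S} (he : e * e = e)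
    (ha1 : e * a = a) (ha2 : a * e = a) (hr1 : e * r = r) (hr2 : r * e = r)
    (h : a * r = e) : r * a = e := by
  let mon : Monoid (LocM e) := locMonoid he
  have hfin : Finite (LocM e) := by unfold LocM; infer_instance
  let r' : LocM e := ⟨r, hr1, hr2⟩
  let a' : LocM e := ⟨a, ha1, ha2⟩
  have har : a' * r' = 1 := Subtype.ext h
  have hinj : Function.Injective (fun z : LocM e => r' * z) := by
    intro z z' hz
    have h1 : a' * (r' * z) = a' * (r' * z') := congrArg (fun t => a' * t) hz
    rw [← mul_assoc, ← mul_assoc, har, one_mul, one_mul] at h1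
    exact h1
  obtain ⟨z, hz⟩ := Finite.surjective_of_injective hinj 1
  have hz' : r' * z = 1 := hz
  have h2 : z = a' := by
    have : a' * (r' * z) = a' * 1 := by rw [hz']
    rw [← mul_assoc, har, one_mul, mul_one] at this
    exact this
  rw [h2] at hz'
  exact congrArg Subtype.val hz'

/-- contexts which keep a word inside the maximal subgroup act as multiplications -/
theorem mon_key {S : Type} [Monoid S] [Finite S] {e x y w wi h' : S} (he : e * e = e)
    (hw1 : e * w = w) (hw2 : w * e = w) (hwi : w * wi = e) (hwi2 : wi * w = e)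
    (h1 : e * (x * w * y) * e = x * w * y) (h2 : x * w * y * h' = e)
    (h3 : h' * (x * w * y) = e) :
    (∃ r, e * x * e * r = e ∧ r * (e * x * e) = e) ∧
    (∃ r, e * y * e * r = e ∧ r * (e * y * e) = e) ∧
    ∀ v, e * v = v → v * e = v → x * v * y = (e * x * e) * v * (e * y * e) := by
  set h := x * w * y with hh
  have eh : e * h = h := by
    conv_lhs => rw [← h1]
    rw [← mul_assoc, ← mul_assoc, he, h1]
  have he' : h * e = h := by
    conv_lhs => rw [← h1]
    rw [mul_assoc, he, h1]
  set a := e * x * e with ha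
  set b := e * y * e with hb
  have ea : e * a = a := by rw [ha, ← mul_assoc, ← mul_assoc, he]
  have ae : a * e = a := by rw [ha, mul_assoc, he]
  have eb : e * b = b := by rw [hb, ← mul_assoc, ← mul_assoc, he]
  have be : b * e = b := by rw [hb, mul_assoc, he]
  have awb : a * w * b = h := by
    calc a * w * b = e * x * (e * w) * e * y * e := by rw [ha, hb]; simp only [mul_assoc]
      _ = e * (x * w * y) * e := by rw [hw1, mul_assoc (e * x) w e, hw2]; simp only [mul_assoc]
      _ = h := h1
  have H1 : h * (e * h' * e) = e := by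
    rw [← mul_assoc, ← mul_assoc, he', h2, he]
  have H2 : e * h' * e * h = e := by
    rw [mul_assoc, eh, mul_assoc, h3, he]
  set H := e * h' * e with hH
  have eH : e * H = H := by rw [hH, ← mul_assoc, ← mul_assoc, he]
  have He : H * e = H := by rw [hH, mul_assoc, he]
  have ar : a * (w * b * H) = e := by
    calc a * (w * b * H) = a * w * b * H := by simp only [mul_assoc]
      _ = e := by rw [awb, H1]
  have er : e * (w * b * H) = w * b * H := by
    calc e * (w * b * H) = e * w * (b * H) := by simp only [mul_assoc]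
      _ = w * b * H := by rw [hw1, ← mul_assoc w b H]
  have es : e * (H * a * w) = H * a * w := by
    calc e * (H * a * w) = e * H * (a * w) := by simp only [mul_assoc]
      _ = H * a * w := by rw [eH, ← mul_assoc H a w]
  have ra : w * b * H * a = e := local_inv he ea ae er (by rw [mul_assoc, He]) ar
  have sb : H * a * w * b = e := by
    rw [mul_assoc, mul_assoc, ← mul_assoc a w b, awb, H2]
  have bs : b * (H * a * w) = e :=
    local_inv he es (by rw [mul_assoc, hw2]) eb be sb
  have xwb : x * w * b = h := by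
    calc x * w * b = x * (w * e) * y * e := by rw [hb]; simp only [mul_assoc]
      _ = h * e := by rw [hw2]
      _ = h := he'
  have xw : x * w = a * w := by
    calc x * w = x * w * (b * (H * a * w)) := by rw [bs, mul_assoc, hw2]
      _ = x * w * b * (H * a * w) := by simp only [mul_assoc]
      _ = h * H * (a * w) := by rw [xwb]; simp only [mul_assoc]
      _ = a * w := by rw [H1, ← mul_assoc, ea]
  have awy : a * w * y = h := by
    rw [← xw]
  have wy : w * y = w * b := by
    calc w * y = e * w * y := by rw [hw1]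
      _ = w * b * H * a * w * y := by rw [ra]
      _ = w * b * H * (a * w * y) := by simp only [mul_assoc]
      _ = w * b * (H * h) := by rw [awy]; simp only [mul_assoc]
      _ = w * b := by rw [H2, mul_assoc, be]
  refine ⟨⟨_, ar, ra⟩, ⟨_, bs, sb⟩, fun v hv1 hv2 => ?_⟩
  have xv : x * v = a * v := by
    calc x * v = x * (w * wi * v) := by rw [hwi, hv1]
      _ = x * w * (wi * v) := by simp only [mul_assoc]
      _ = a * (w * wi * v) := by rw [xw]; simp only [mul_assoc]
      _ = a * v := by rw [hwi, hv1]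
  have vy : v * y = v * b := by
    calc v * y = v * (wi * w) * y := by rw [hwi2, hv2]
      _ = v * wi * (w * y) := by simp only [mul_assoc]
      _ = v * (wi * w) * b := by rw [wy]; simp only [mul_assoc]
      _ = v * b := by rw [hwi2, hv2]
  rw [xv, mul_assoc, vy, ← mul_assoc]

/-- the same statement for words -/
theorem word_key {A G : Type} [Group G] {L : Set (List A)} (hL : FinData L) {e : List A}
    {val : List A → G} (hmax : IsMaxSubgroup L e val) {x y w : List A} (hw : InGroup L e w)
    (hxy : InGroup L e (x ++ w ++ y)) :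
    InGroup L e (e ++ x ++ e) ∧ ∃ a b : G, ∀ v, InGroup L e v →
      InGroup L e (x ++ v ++ y) ∧ val (x ++ v ++ y) = a * val v * b := by
  classical
  have hfin : Finite (Pool.Agent.GSHR.Syn ({L} : Set (Set (List A)))) :=
    Pool.Agent.GSHR.syn_finite (Set.finite_singleton _) (by rintro _ rfl; exact hL)
  have hs : ∀ v, InGroup L e v → SynEq L (e ++ v) v ∧ SynEq L (v ++ e) v := by
    intro v hv
    have h0 := hmax.idem
    have h1 := hv.1
    rw [synEq_iff] at h0 h1
    simp only [Pool.Agent.GSHR.cls_append] at h0 h1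
    constructor
    · rw [synEq_iff, Pool.Agent.GSHR.cls_append]
      conv_lhs => rw [← h1]
      rw [← mul_assoc, ← mul_assoc, h0, h1]
    · rw [synEq_iff, Pool.Agent.GSHR.cls_append]
      conv_lhs => rw [← h1]
      rw [mul_assoc, h0, h1]
  have h0 := hmax.idem
  obtain ⟨g1, g2⟩ := hs w hw
  obtain ⟨-, wi, i1, i2⟩ := hw
  obtain ⟨j1, h', j2, j3⟩ := hxy
  rw [synEq_iff] at h0 g1 g2 i1 i2 j1 j2 j3
  simp only [Pool.Agent.GSHR.cls_append] at h0 g1 g2 i1 i2 j1 j2 j3
  obtain ⟨⟨r, r1, r2⟩, ⟨s, s1, s2⟩, hv⟩ := mon_key h0 g1 g2 i1 i2 j1 j2 j3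
  have hex : ∀ (z : List A) (t : Pool.Agent.GSHR.Syn ({L} : Set (Set (List A)))),
      Pool.Agent.GSHR.cls {L} e * Pool.Agent.GSHR.cls {L} z * Pool.Agent.GSHR.cls {L} e * t =
        Pool.Agent.GSHR.cls {L} e →
      t * (Pool.Agent.GSHR.cls {L} e * Pool.Agent.GSHR.cls {L} z * Pool.Agent.GSHR.cls {L} e) =
        Pool.Agent.GSHR.cls {L} e → InGroup L e (e ++ z ++ e) := by
    intro z t t1 t2
    obtain ⟨t', rfl⟩ := Pool.Agent.GSHR.cls_surj t
    refine ⟨?_, t', ?_, ?_⟩
    · rw [synEq_iff]
      simp only [Pool.Agent.GSHR.cls_append]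
      rw [← mul_assoc, ← mul_assoc, h0, mul_assoc, h0]
    · rw [synEq_iff]
      simp only [Pool.Agent.GSHR.cls_append]
      exact t1
    · rw [synEq_iff]
      simp only [Pool.Agent.GSHR.cls_append]
      exact t2
  have hx := hex x r r1 r2
  have hy := hex y s s1 s2
  refine ⟨hx, val (e ++ x ++ e), val (e ++ y ++ e), fun v hv' => ?_⟩
  obtain ⟨k1, k2⟩ := hs v hv'
  have i3 := inGroup_mul hmax.idem (inGroup_mul hmax.idem hx hv') hy
  have k3 : SynEq L ((e ++ x ++ e) ++ v ++ (e ++ y ++ e)) (x ++ v ++ y) := by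
    rw [synEq_iff] at k1 k2 ⊢
    simp only [Pool.Agent.GSHR.cls_append] at k1 k2 ⊢
    exact (hv _ k1 k2).symm
  have i4 := InGroup.congr k3 i3
  refine ⟨i4, ?_⟩
  rw [← (hmax.inj _ _ i3 i4).2 k3, hmax.mul _ _ (inGroup_mul hmax.idem hx hv') hy,
    hmax.mul _ _ hx hv']

/-- the values that can be reached from `1` by the joint syntactic congruence of a family of
languages form a normal subgroup -/
theorem reach {A G : Type} [Group G] {L : Set (List A)} {e : List A}
    {val : List A → G} (hmax : IsMaxSubgroup L e val) (T : Set (Set (List A))) :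
    ∃ N : Subgroup G, N.Normal ∧ ∀ g, g ∈ N ↔ ∃ u u', InGroup L e u ∧ InGroup L e u' ∧
      val u = 1 ∧ val u' = g ∧ ∀ X ∈ T, SynEq X u u' := by
  refine ⟨{ carrier := {g | ∃ u u', InGroup L e u ∧ InGroup L e u' ∧ val u = 1 ∧ val u' = g ∧
        ∀ X ∈ T, SynEq X u u'}
            mul_mem' := ?_, one_mem' := ?_, inv_mem' := ?_ }, ⟨?_⟩, fun g => Iff.rfl⟩
  · rintro a b ⟨u, u', hu, hu', h1, h2, h3⟩ ⟨v, v', hv, hv', g1, g2, g3⟩
    exact ⟨u ++ v, u' ++ v', inGroup_mul hmax.idem hu hv, inGroup_mul hmax.idem hu' hv',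
      by rw [hmax.mul _ _ hu hv, h1, g1, mul_one], by rw [hmax.mul _ _ hu' hv', h2, g2],
      fun K hK => (h3 K hK).append (g3 K hK)⟩
  · obtain ⟨u, hu, h1⟩ := hmax.onto 1
    exact ⟨u, u, hu, hu, h1, h1, fun K _ => SynEq.refl _ _⟩
  · rintro a ⟨u, u', hu, hu', h1, h2, h3⟩
    obtain ⟨v, hv, g1⟩ := hmax.onto a⁻¹
    exact ⟨v ++ u', v ++ u, inGroup_mul hmax.idem hv hu', inGroup_mul hmax.idem hv hu,
      by rw [hmax.mul _ _ hv hu', h2, g1, inv_mul_cancel],
      by rw [hmax.mul _ _ hv hu, h1, g1, mul_one],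
      fun K hK => (SynEq.refl _ v).append (h3 K hK).symm⟩
  · rintro a ⟨u, u', hu, hu', h1, h2, h3⟩ c
    obtain ⟨x, hx, x1⟩ := hmax.onto c
    obtain ⟨y, hy, y1⟩ := hmax.onto c⁻¹
    have i1 := inGroup_mul hmax.idem hx hu
    have i2 := inGroup_mul hmax.idem hx hu'
    exact ⟨x ++ u ++ y, x ++ u' ++ y, inGroup_mul hmax.idem i1 hy,
      inGroup_mul hmax.idem i2 hy,
      by rw [hmax.mul _ _ i1 hy, hmax.mul _ _ hx hu, h1, x1, y1, mul_one, mul_inv_cancel],
      by rw [hmax.mul _ _ i2 hy, hmax.mul _ _ hx hu', h2, x1, y1],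
      fun K hK => (h3 K hK).ctx x y⟩

/-- For a normal subgroup `N` of a maximal subgroup of the syntactic monoid of `L`, the words
with value in `N` form a single class of their own syntactic congruence, and its maximal
subgroup is the quotient by `N`. -/
theorem quotient_language {A G : Type} [Group G] {L : Set (List A)} (hL : FinData L)
    {e : List A} {val : List A → G} (hmax : IsMaxSubgroup L e val) (N : Subgroup G)
    [hN : N.Normal] :
    ∃ (E : Set (List A)) (val' : List A → G ⧸ N), (∀ u v, SynEq L u v → SynEq E u v) ∧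
      (∀ w, w ∈ E ↔ SynEq E w e) ∧ IsMaxSubgroup E e val' ∧
      ∀ w, InGroup L e w → InGroup E e w ∧ val' w = QuotientGroup.mk (val w) := by
  classical
  set E : Set (List A) := {w | InGroup L e w ∧ val w ∈ N} with hE
  have he : InGroup L e e := ⟨(hmax.idem.append (SynEq.refl L e)).trans hmax.idem, e,
    hmax.idem, hmax.idem⟩
  have hve : val e = 1 := by
    have h1 := (hmax.inj _ _ (inGroup_mul hmax.idem he he) he).2 hmax.idem
    rw [hmax.mul _ _ he he] at h1
    simpa using h1
  have hmemE : ∀ u v, SynEq L u v → u ∈ E → v ∈ E := by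
    rintro u v h ⟨h1, h2⟩
    have h3 := InGroup.congr h h1
    exact ⟨h3, by rw [← (hmax.inj _ _ h1 h3).2 h]; exact h2⟩
  have hsat : ∀ u v, SynEq L u v → SynEq E u v := fun u v h x y =>
    ⟨hmemE _ _ (h.ctx x y), hmemE _ _ (h.ctx x y).symm⟩
  have hgrp : ∀ w, InGroup L e w → InGroup E e w := by
    rintro w ⟨h1, y, h2, h3⟩
    exact ⟨hsat _ _ h1, y, hsat _ _ h2, hsat _ _ h3⟩
  -- words in the group with the same value modulo `N` are equivalent
  have hone : ∀ p p', InGroup L e p → InGroup L e p' → (val p)⁻¹ * val p' ∈ N →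
      ∀ x y, x ++ p ++ y ∈ E → x ++ p' ++ y ∈ E := by
    rintro p p' hp hp' hpp x y ⟨h1, h2⟩
    obtain ⟨-, a, b, hab⟩ := word_key hL hmax hp h1
    refine ⟨(hab p' hp').1, ?_⟩
    rw [(hab p hp).2] at h2
    rw [(hab p' hp').2]
    have h3 := hN.conj_mem _ hpp (a * val p)
    have h4 : a * val p' * b = (a * val p * ((val p)⁻¹ * val p') * (a * val p)⁻¹) *
        (a * val p * b) := by group
    rw [h4]
    exact mul_mem h3 h2
  have htwo : ∀ p p', InGroup L e p → InGroup L e p' → (val p)⁻¹ * val p' ∈ N →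
      SynEq E p p' := by
    intro p p' hp hp' hpp x y
    refine ⟨hone p p' hp hp' hpp x y, hone p' p hp' hp ?_ x y⟩
    have := inv_mem hpp
    rwa [mul_inv_rev, inv_inv] at this
  have hthree : ∀ p p', InGroup L e p → InGroup L e p' → SynEq E p p' →
      (val p)⁻¹ * val p' ∈ N := by
    intro p p' hp hp' h
    obtain ⟨q, hq, hq1⟩ := hmax.onto (val p)⁻¹
    have h1 : q ++ p ++ [] ∈ E := by
      rw [List.append_nil]
      refine ⟨inGroup_mul hmax.idem hq hp, ?_⟩
      rw [hmax.mul _ _ hq hp, hq1, inv_mul_cancel]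
      exact one_mem _
    have h2 := ((h q []).1 h1).2
    rw [List.append_nil, hmax.mul _ _ hq hp', hq1] at h2
    exact h2
  have hclass : ∀ w, w ∈ E ↔ SynEq E w e := by
    intro w
    constructor
    · rintro ⟨h1, h2⟩
      refine htwo w e h1 he ?_
      rw [hve, mul_one]
      exact inv_mem h2
    · intro h
      have h1 := h [] []
      simp only [List.nil_append, List.append_nil] at h1
      exact h1.2 ⟨he, by rw [hve]; exact one_mem _⟩
  have hidem : SynEq E (e ++ e) e := hsat _ _ hmax.idem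
  -- words of the maximal subgroup for `E` are, between two `e`, in the one for `L`
  have hback : ∀ w, InGroup E e w → InGroup L e (e ++ w ++ e) := by
    rintro w ⟨h1, y, h2, h3⟩
    have h4 : (e ++ w ++ e) ++ y ∈ E := by
      rw [hclass]
      exact (h1.append (SynEq.refl _ y)).trans h2
    have h5 : InGroup L e ((e ++ w) ++ e ++ y) := by
      have := h4.1
      simpa only [List.append_assoc] using this
    have h6 := (word_key hL hmax he h5).1
    refine InGroup.congr ?_ h6
    have := hmax.idem.ctx [] (w ++ e)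
    simpa only [List.nil_append, List.append_assoc] using this
  refine ⟨E, fun w => QuotientGroup.mk (val (e ++ w ++ e)), hsat, hclass, ?_, ?_⟩
  swap
  · intro w hw
    refine ⟨hgrp w hw, ?_⟩
    show QuotientGroup.mk (val (e ++ w ++ e)) = _
    rw [(hmax.inj _ _ (inGroup_mul hmax.idem (inGroup_mul hmax.idem he hw) he) hw).2 hw.1]
  have hinj : ∀ w w', InGroup E e w → InGroup E e w' →
      ((QuotientGroup.mk (val (e ++ w ++ e)) : G ⧸ N) = QuotientGroup.mk (val (e ++ w' ++ e)) ↔
        SynEq E w w') := by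
    intro w w' hw hw'
    rw [QuotientGroup.eq]
    constructor
    · intro h
      exact (hw.1.symm.trans (htwo _ _ (hback w hw) (hback w' hw') h)).trans hw'.1
    · intro h
      exact hthree _ _ (hback w hw) (hback w' hw') (h.ctx e e)
  refine ⟨hidem, ?_, ?_, hinj⟩
  · intro w w' hw hw'
    show (QuotientGroup.mk (val (e ++ (w ++ w') ++ e)) : G ⧸ N) =
      QuotientGroup.mk (val (e ++ w ++ e)) * QuotientGroup.mk (val (e ++ w' ++ e))
    have hb := hback w hw
    have hb' := hback w' hw'
    have hz := inGroup_mul hmax.idem hb hb'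
    have h1 : SynEq E (w ++ w') ((e ++ w ++ e) ++ (e ++ w' ++ e)) :=
      hw.1.symm.append hw'.1.symm
    rw [(hinj _ _ (inGroup_mul hidem hw hw') (hgrp _ hz)).2 h1, ← QuotientGroup.mk_mul,
      ← hmax.mul _ _ hb hb',
      (hmax.inj _ _ (inGroup_mul hmax.idem (inGroup_mul hmax.idem he hz) he) hz).2 hz.1]
  · intro g
    obtain ⟨g0, rfl⟩ := QuotientGroup.mk_surjective g
    obtain ⟨w, hw, rfl⟩ := hmax.onto g0
    refine ⟨w, hgrp w hw, ?_⟩
    show QuotientGroup.mk (val (e ++ w ++ e)) = _
    rw [(hmax.inj _ _ (inGroup_mul hmax.idem (inGroup_mul hmax.idem he hw) he) hw).2 hw.1]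

/-- every language recognised by the syntactic monoid of a language of height `m + 1` has height
at most `m + 1` -/
theorem recognised {A : Type} [Finite A] {m : ℕ} {L E : Set (List A)} (h : Ht (m + 1) L)
    (hE : ∀ u v, SynEq L u v → SynEq E u v) : Ht (m + 1) E := by
  obtain ⟨F, hF, hH, habs⟩ := h.abs m rfl
  have hD : FinData E := by
    obtain ⟨D, hD, d, hd⟩ := h.finData
    exact ⟨D, hD, d, fun u v huv x y =>
      ((hE u v (fun a b => ⟨hd u v huv a b, hd v u huv.symm a b⟩)) x y).1⟩
  refine Pool.Agent.GSHR.criterion hD hF hH (fun u hu => ?_)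
  obtain ⟨n0, hn0⟩ := habs u hu
  refine ⟨n0, ?_⟩
  rintro _ rfl x y
  exact ((hE _ _ (fun a b => hn0 a b)) x y).symm

/-- the reduction without minimality -/
theorem reduction {A : Type} [Finite A] (n : ℕ) (L : Set (List A)) (h2 : Ht (n + 2) L)
    (h1 : ¬ Ht (n + 1) L) :
    ∃ (E : Set (List A)) (e : List A) (G : Type) (_ : Group G) (_ : Finite G)
      (val : List A → G) (M : Subgroup G),
      Ht (n + 2) E ∧ ¬ Ht (n + 1) E ∧ (∀ u v, SynEq L u v → SynEq E u v) ∧
      (∀ w, w ∈ E ↔ SynEq E w e) ∧ IsMaxSubgroup E e val ∧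
      M.Normal ∧ M ≠ ⊥ ∧ (∀ N : Subgroup G, N.Normal → N ≠ ⊥ → M ≤ N) ∧
      ∀ F : Set (Set (List A)), F.Finite → (∀ K ∈ F, Ht n K) → ∀ m ∈ M,
        ∃ w w' : List A, InGroup E e w ∧ InGroup E e w' ∧ val w = 1 ∧ val w' = m ∧
          ∀ K ∈ F, SynEq (star K) w w' := by
  classical
  have hL : FinData L := h2.finData
  -- a maximal subgroup which is not determined
  obtain ⟨G₀, iG, e, val₀, hmax₀, hbad⟩ : ∃ (G : Type) (_ : Group G) (e : List A)
      (val : List A → G), IsMaxSubgroup L e val ∧ ∀ F : Set (Set (List A)), F.Finite →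
        (∀ K ∈ F, Ht n K) → ∃ w w' : List A, InGroup L e w ∧ InGroup L e w' ∧
          (∀ K ∈ F, SynEq (star K) w w') ∧ val w ≠ val w' := by
    by_contra hcon
    refine h1 (criterion_all hL ?_)
    intro G _ e val hmax
    by_contra hc
    refine hcon ⟨G, inferInstance, e, val, hmax, fun F hF hH => ?_⟩
    by_contra hd
    refine hc ⟨F, hF, hH, fun w w' hw hw' hww => ?_⟩
    by_contra hne
    exact hd ⟨w, w', hw, hw', hww, hne⟩
  have hfin₀ : Finite G₀ := finite_of_max hL hmax₀
  -- a value which no family tells from `1`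
  obtain ⟨g, hg1, hg⟩ : ∃ g : G₀, g ≠ 1 ∧ ∀ F : Set (Set (List A)), F.Finite →
      (∀ K ∈ F, Ht n K) → ∃ w w' : List A, InGroup L e w ∧ InGroup L e w' ∧ val₀ w = 1 ∧
        val₀ w' = g ∧ ∀ K ∈ F, SynEq (star K) w w' := by
    by_contra hcon
    have hall : ∀ g : {g : G₀ // g ≠ 1}, ∃ F : Set (Set (List A)), F.Finite ∧
        (∀ K ∈ F, Ht n K) ∧ ∀ w w' : List A, InGroup L e w → InGroup L e w' → val₀ w = 1 →
          val₀ w' = g.1 → ¬ ∀ K ∈ F, SynEq (star K) w w' := by
      rintro ⟨g, hg⟩
      by_contra hc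
      refine hcon ⟨g, hg, fun F hF hH => ?_⟩
      by_contra hd
      refine hc ⟨F, hF, hH, fun w w' hw hw' e1 e2 hww => ?_⟩
      exact hd ⟨w, w', hw, hw', e1, e2, hww⟩
    choose F hF hH hno using hall
    obtain ⟨w, w', hw, hw', hww, hne⟩ := hbad (⋃ g, F g) (Set.finite_iUnion hF) (by
      intro K hK
      obtain ⟨g, hg⟩ := Set.mem_iUnion.1 hK
      exact hH g K hg)
    obtain ⟨v, hv, hv1⟩ := hmax₀.onto (val₀ w)⁻¹
    have hne' : (val₀ w)⁻¹ * val₀ w' ≠ 1 := by
      rw [ne_eq, inv_mul_eq_one]
      exact hne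
    refine hno ⟨_, hne'⟩ (v ++ w) (v ++ w') (inGroup_mul hmax₀.idem hv hw)
      (inGroup_mul hmax₀.idem hv hw') (by rw [hmax₀.mul _ _ hv hw, hv1, inv_mul_cancel])
      (by rw [hmax₀.mul _ _ hv hw', hv1]) (fun K hK => ?_)
    exact (SynEq.refl _ v).append (hww K (Set.mem_iUnion.2 ⟨_, hK⟩))
  -- a maximal normal subgroup without `g`
  obtain ⟨N, ⟨hNn, hgN⟩, hNmax⟩ := (wellFounded_gt (α := Subgroup G₀)).has_min
    {N | N.Normal ∧ g ∉ N} ⟨⊥, inferInstance, fun h => hg1 (Subgroup.mem_bot.1 h)⟩
  obtain ⟨E, val, hsat, hclass, hmax, hval⟩ := quotient_language hL hmax₀ N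
  have hgne : (QuotientGroup.mk g : G₀ ⧸ N) ≠ 1 := by
    rw [ne_eq, QuotientGroup.eq_one_iff]
    exact hgN
  have hkey : ∀ F : Set (Set (List A)), F.Finite → (∀ K ∈ F, Ht n K) →
      ∀ m ∈ Subgroup.normalClosure {(QuotientGroup.mk g : G₀ ⧸ N)},
        ∃ w w' : List A, InGroup E e w ∧ InGroup E e w' ∧ val w = 1 ∧ val w' = m ∧
          ∀ K ∈ F, SynEq (star K) w w' := by
    intro F hF hH m hm
    obtain ⟨R, hR, hR2⟩ := reach hmax (star '' F)
    have hmR : m ∈ R := by
      refine Subgroup.normalClosure_le_normal ?_ hm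
      rw [Set.singleton_subset_iff]
      show _ ∈ R
      rw [hR2]
      obtain ⟨w, w', hw, hw', e1, e2, hww⟩ := hg F hF hH
      refine ⟨w, w', (hval w hw).1, (hval w' hw').1, ?_, ?_, ?_⟩
      · rw [(hval w hw).2, e1]; rfl
      · rw [(hval w' hw').2, e2]
      · rintro _ ⟨K, hK, rfl⟩
        exact hww K hK
    obtain ⟨w, w', hw, hw', e1, e2, hww⟩ := (hR2 m).1 hmR
    exact ⟨w, w', hw, hw', e1, e2, fun K hK => hww _ ⟨K, hK, rfl⟩⟩
  refine ⟨E, e, G₀ ⧸ N, inferInstance, inferInstance, val,
    Subgroup.normalClosure {(QuotientGroup.mk g : G₀ ⧸ N)}, recognised h2 hsat, ?_, hsat,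
    hclass, hmax, Subgroup.normalClosure_normal, ?_, ?_, hkey⟩
  · intro hE
    obtain ⟨F, hF, hH, habs⟩ := hE.abs n rfl
    obtain ⟨w, w', hw, hw', e1, e2, hww⟩ := hkey F hF hH _
      (Subgroup.subset_normalClosure (Set.mem_singleton _))
    apply hgne
    rw [← e2, ← e1]
    symm
    refine Pool.Agent.GSHR.val_eq_of_stars (L := E) (P := {w | InGroup E e w}) hF
      (fun K hK => ((hH K hK).star).finData) habs
      (fun u hu v hv => ⟨inGroup_mul hmax.idem hu hv, hmax.mul u v hu hv⟩)
      (fun u hu v hv huv => (hmax.inj u v hu hv).2 (fun x y => huv E rfl x y)) hw hw' ?_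
    rintro _ ⟨K, hK, rfl⟩ x y
    exact hww K hK x y
  · intro hbot
    apply hgne
    have := Subgroup.subset_normalClosure (Set.mem_singleton (QuotientGroup.mk g : G₀ ⧸ N))
    rw [SetLike.mem_coe, hbot, Subgroup.mem_bot] at this
    exact this
  · intro N' hN' hne
    refine Subgroup.normalClosure_le_normal ?_
    rw [Set.singleton_subset_iff]
    by_contra hgn
    have hc : (N'.comap (QuotientGroup.mk' N)).Normal := hN'.comap _
    refine hNmax (N'.comap (QuotientGroup.mk' N)) ⟨hc, hgn⟩ ?_
    refine lt_of_le_of_ne ?_ ?_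
    · intro z hz
      rw [Subgroup.mem_comap]
      have : QuotientGroup.mk' N z = 1 := (QuotientGroup.eq_one_iff z).2 hz
      rw [this]
      exact one_mem _
    · intro heq
      apply hne
      rw [Subgroup.eq_bot_iff_forall]
      intro z hz
      obtain ⟨z0, rfl⟩ := QuotientGroup.mk'_surjective N z
      have : z0 ∈ N := by rw [heq]; exact hz
      exact (QuotientGroup.eq_one_iff z0).2 this

/-- the number of syntactic classes under refinement -/
theorem card_syn {A : Type} {X Y : Set (List A)} (hX : FinData X)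
    (h : ∀ u v, SynEq X u v → SynEq Y u v) :
    Nat.card (Pool.Agent.GSHR.Syn ({Y} : Set (Set (List A)))) ≤
        Nat.card (Pool.Agent.GSHR.Syn ({X} : Set (Set (List A)))) ∧
      (Nat.card (Pool.Agent.GSHR.Syn ({X} : Set (Set (List A)))) ≤
        Nat.card (Pool.Agent.GSHR.Syn ({Y} : Set (Set (List A)))) →
          ∀ u v, SynEq Y u v → SynEq X u v) := by
  have hfin : Finite (Pool.Agent.GSHR.Syn ({X} : Set (Set (List A)))) :=
    Pool.Agent.GSHR.syn_finite (Set.finite_singleton _) (by rintro _ rfl; exact hX)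
  let f : Pool.Agent.GSHR.Syn ({X} : Set (Set (List A))) →
      Pool.Agent.GSHR.Syn ({Y} : Set (Set (List A))) :=
    Quotient.lift (fun w => Pool.Agent.GSHR.cls {Y} w)
      (fun u v huv => synEq_iff.1 (h u v (synEq_iff.2 (Quotient.sound huv))))
  have hf : ∀ w, f (Pool.Agent.GSHR.cls {X} w) = Pool.Agent.GSHR.cls {Y} w := fun w => rfl
  have hsurj : Function.Surjective f := by
    intro y
    obtain ⟨w, rfl⟩ := Pool.Agent.GSHR.cls_surj y
    exact ⟨_, hf w⟩
  refine ⟨Nat.card_le_card_of_surjective f hsurj, fun hc u v huv => ?_⟩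
  have hb := hsurj.bijective_of_nat_card_le hc
  rw [synEq_iff]
  apply hb.1
  rw [hf, hf]
  exact synEq_iff.1 huv

/-- **Reduction.** Let `A` be a finite alphabet and let `L` be a language over `A` of generalized
star height exactly `n + 2`. Then there is a language `E` over `A`, recognised by the syntactic
monoid of `L`, such that
(1) `E` has generalized star height exactly `n + 2`;
(2) `E` is a single class of its own syntactic congruence, the class of the word `e`, and this
class is idempotent;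
(3) the maximal subgroup `G` of the syntactic monoid of `E` at this idempotent has a least
nontrivial normal subgroup `M`;
(4) for every `m` in `M` and every finite family of languages of height at most `n` there are a
word of class `1` and a word of class `m` with the same contexts in all stars of members of the
family;
(5) every language recognised by the syntactic monoid of `E` whose syntactic congruence is not
that of `E` has height at most `n + 1` and identifies the words of class `1` with the words of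
class `m`, for all `m` in `M`;
(6) two words `u` and `v` with the same contexts of the form `(e ++ x, y ++ e)` in `E` have the
same contexts in `E`. -/
theorem result {A : Type} [Finite A] (n : ℕ) (L : Set (List A)) (h2 : Ht (n + 2) L)
    (h1 : ¬ Ht (n + 1) L) :
    ∃ (E : Set (List A)) (e : List A) (G : Type) (_ : Group G) (_ : Finite G)
      (val : List A → G) (M : Subgroup G),
      (∀ u v, SynEq L u v → SynEq E u v) ∧
      (Ht (n + 2) E ∧ ¬ Ht (n + 1) E) ∧
      (∀ w, w ∈ E ↔ SynEq E w e) ∧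
      (IsMaxSubgroup E e val ∧ M.Normal ∧ M ≠ ⊥ ∧
        ∀ N : Subgroup G, N.Normal → N ≠ ⊥ → M ≤ N) ∧
      (∀ F : Set (Set (List A)), F.Finite → (∀ K ∈ F, Ht n K) → ∀ m ∈ M,
        ∃ w w' : List A, InGroup E e w ∧ InGroup E e w' ∧ val w = 1 ∧ val w' = m ∧
          ∀ K ∈ F, SynEq (star K) w w') ∧
      (∀ E' : Set (List A), (∀ u v, SynEq E u v → SynEq E' u v) →
        ¬ (∀ u v, SynEq E' u v → SynEq E u v) → Ht (n + 1) E' ∧
          ∀ w w' : List A, InGroup E e w → InGroup E e w' → val w = 1 → val w' ∈ M →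
            SynEq E' w w') ∧
      (∀ u v : List A, (∀ x y : List A,
        e ++ x ++ u ++ y ++ e ∈ E ↔ e ++ x ++ v ++ y ++ e ∈ E) → SynEq E u v) := by
  classical
  -- a language with the least number of classes
  obtain ⟨X, ⟨hX, hX2, hX1⟩, hXmin⟩ := (measure (fun X : Set (List A) =>
    Nat.card (Pool.Agent.GSHR.Syn ({X} : Set (Set (List A)))))).wf.has_min
    {X | (∀ u v, SynEq L u v → SynEq X u v) ∧ Ht (n + 2) X ∧ ¬ Ht (n + 1) X}
    ⟨L, fun u v h => h, h2, h1⟩
  obtain ⟨E, e, G, iG, iF, val, M, hE2, hE1, hsat, hclass, hmax, hMn, hMb, hMl, hkey⟩ :=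
    reduction n X hX2 hX1
  have hmin : ∀ E' : Set (List A), (∀ u v, SynEq E u v → SynEq E' u v) → ¬ Ht (n + 1) E' →
      ∀ u v, SynEq E' u v → SynEq E u v := by
    intro E' hE' hno
    have hS : ¬ (Nat.card (Pool.Agent.GSHR.Syn ({E'} : Set (Set (List A)))) <
        Nat.card (Pool.Agent.GSHR.Syn ({X} : Set (Set (List A))))) :=
      hXmin E' ⟨fun u v h => hE' _ _ (hsat _ _ (hX _ _ h)), recognised hE2 hE', hno⟩
    exact (card_syn hE2.finData hE').2
      (((card_syn hX2.finData hsat).1).trans (not_lt.1 hS))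
  -- languages of height at most `n + 1` recognised by the syntactic monoid do not see `M`
  have hinv : ∀ E' : Set (List A), (∀ u v, SynEq E u v → SynEq E' u v) → Ht (n + 1) E' →
      ∀ w w' : List A, InGroup E e w → InGroup E e w' → val w = 1 → val w' ∈ M →
        SynEq E' w w' := by
    intro E' hE' hH' w w' hw hw' e1 e2
    obtain ⟨F, hF, hH, habs⟩ := hH'.abs n rfl
    obtain ⟨R, hR, hR2⟩ := reach hmax {E'}
    obtain ⟨z, z', hz, hz', f1, f2, hzz⟩ := hkey F hF hH (val w') e2
    have h3 : (QuotientGroup.mk (val z) : G ⧸ R) = QuotientGroup.mk (val z') := by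
      refine Pool.Agent.GSHR.val_eq_of_stars (L := E') (P := {w | InGroup E e w})
        (val := fun w => (QuotientGroup.mk (val w) : G ⧸ R)) hF
        (fun K hK => ((hH K hK).star).finData) habs
        (fun u hu v hv => ⟨inGroup_mul hmax.idem hu hv, by
          show (QuotientGroup.mk (val (u ++ v)) : G ⧸ R) = _
          rw [hmax.mul u v hu hv]; rfl⟩)
        (fun u hu v hv huv => ?_) hz hz' ?_
      · show (QuotientGroup.mk (val u) : G ⧸ R) = QuotientGroup.mk (val v)
        rw [QuotientGroup.eq, hR2]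
        obtain ⟨q, hq, hq1⟩ := hmax.onto (val u)⁻¹
        refine ⟨q ++ u, q ++ v, inGroup_mul hmax.idem hq hu, inGroup_mul hmax.idem hq hv,
          by rw [hmax.mul _ _ hq hu, hq1, inv_mul_cancel], by rw [hmax.mul _ _ hq hv, hq1], ?_⟩
        rintro _ rfl
        exact (SynEq.refl _ q).append (fun x y => huv _ rfl x y)
      · rintro _ ⟨K, hK, rfl⟩ x y
        exact hzz K hK x y
    rw [QuotientGroup.eq, f1, f2, inv_one, one_mul, hR2] at h3
    obtain ⟨u, u', hu, hu', g1, g2, g3⟩ := h3
    have k1 : SynEq E w u := (hmax.inj w u hw hu).1 (by rw [e1, g1])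
    have k2 : SynEq E u' w' := (hmax.inj u' w' hu' hw').1 g2
    exact (hE' _ _ k1).trans ((g3 E' rfl).trans (hE' _ _ k2))
  have hee : e ∈ E := (hclass e).2 (SynEq.refl _ _)
  have heg : InGroup E e e := ⟨(hmax.idem.append (SynEq.refl E e)).trans hmax.idem, e,
    hmax.idem, hmax.idem⟩
  refine ⟨E, e, G, iG, iF, val, M, fun u v h => hsat _ _ (hX _ _ h), ⟨hE2, hE1⟩, hclass,
    ⟨hmax, hMn, hMb, hMl⟩, hkey, ?_, ?_⟩
  · intro E' hE' hne
    have h1' : Ht (n + 1) E' := by
      by_contra hno
      exact hne (hmin E' hE' hno)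
    exact ⟨h1', hinv E' hE' h1'⟩
  · let E' : Set (List A) := {w | e ++ w ++ e ∈ E}
    have hE' : ∀ u v, SynEq E u v → SynEq E' u v := by
      intro u v huv x y
      have := huv (e ++ x) (y ++ e)
      show e ++ (x ++ u ++ y) ++ e ∈ E ↔ e ++ (x ++ v ++ y) ++ e ∈ E
      simpa only [List.append_assoc] using this
    have hno : ¬ Ht (n + 1) E' := by
      intro hH'
      obtain ⟨m, hm, hm1⟩ : ∃ m ∈ M, m ≠ 1 := by
        by_contra hcon
        push Not at hcon
        exact hMb ((Subgroup.eq_bot_iff_forall _).2 hcon)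
      obtain ⟨w, hw, hw1⟩ := hmax.onto 1
      obtain ⟨w', hw', hw1'⟩ := hmax.onto m
      have h3 := hinv E' hE' hH' w w' hw hw' hw1 (by rw [hw1']; exact hm) [] []
      have h3' : w ∈ E' ↔ w' ∈ E' := by
        simpa only [List.nil_append, List.append_nil] using h3
      have h4 : e ++ w ++ e ∈ E ↔ e ++ w' ++ e ∈ E := h3'
      have hval1 : val e = 1 := by
        have h5 := (hmax.inj _ _ (inGroup_mul hmax.idem heg heg) heg).2 hmax.idem
        rw [hmax.mul _ _ heg heg] at h5
        simpa using h5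
      have h6 : SynEq E w e := (hmax.inj _ _ hw heg).1 (by rw [hw1, hval1])
      have h7 : e ++ w ++ e ∈ E := (hclass _).2 (hw.1.trans h6)
      have h8 : SynEq E w' e := hw'.1.symm.trans ((hclass _).1 (h4.1 h7))
      apply hm1
      rw [← hw1', (hmax.inj _ _ hw' heg).2 h8, hval1]
    intro u v huv
    refine hmin E' hE' hno u v (fun x y => ?_)
    show e ++ (x ++ u ++ y) ++ e ∈ E ↔ e ++ (x ++ v ++ y) ++ e ∈ E
    have := huv x y
    simpa only [List.append_assoc] using this

end Pool.Agent.Results.MP_1ffbee_lc.MonolithReduction
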