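import Pool.Agent.GSHR.Crit

set_option autoImplicit false

namespace Pool.Agent.Results.MP_1ffbee_lc.OrthodoxReduction

open Pool.Agent.GSH

/-- the two words have the same contexts in `L` (syntactic congruence of `L`) -/
def SynEq {A : Type} (L : Set (List A)) (w w' : List A) : Prop :=
  ∀ x y : List A, x ++ w ++ y ∈ L ↔ x ++ w' ++ y ∈ L

/-- The class of the word `w` belongs to the maximal subgroup with identity (the class of) `e`
of the syntactic monoid of `L`; here `e` is idempotent modulo `L`. -/
def InGroup {A : Type} (L : Set (List A)) (e w : List A) : Prop :=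
  SynEq L (e ++ w ++ e) w ∧ ∃ y : List A, SynEq L (w ++ y) e ∧ SynEq L (y ++ w) e

/-- `e` is idempotent modulo `L`, and `val` identifies the maximal subgroup with identity `e` of
the syntactic monoid of `L` with the group `G`. -/
structure IsMaxSubgroup {A G : Type} [Group G] (L : Set (List A)) (e : List A)
    (val : List A → G) : Prop where
  idem : SynEq L (e ++ e) e
  mul : ∀ w w' : List A, InGroup L e w → InGroup L e w' → val (w ++ w') = val w * val w'
  onto : ∀ g : G, ∃ w : List A, InGroup L e w ∧ val w = g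
  inj : ∀ w w' : List A, InGroup L e w → InGroup L e w' → (val w = val w' ↔ SynEq L w w')

/-- Every regular D-class of the syntactic monoid of `L` that contains a nontrivial group is a
rectangular group: if the idempotents `e` and `f` generate the same ideal and the maximal
subgroup at `e` is not trivial, then `efe = e`. (If `efe = e` holds for all idempotents `e`, `f`
which generate the same ideal, the monoid is said to belong to `DO`.) -/
def RectGroups {A : Type} (L : Set (List A)) : Prop :=
  ∀ e f : List A, SynEq L (e ++ e) e → SynEq L (f ++ f) f →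
    (∃ x y, SynEq L (x ++ e ++ y) f) → (∃ x y, SynEq L (x ++ f ++ y) e) →
      (∃ w, InGroup L e w ∧ ¬ SynEq L w e) → SynEq L (e ++ f ++ e) e

/-- the local monoid at an idempotent -/
def LocM {M : Type} [Monoid M] (x : M) : Type := {y : M // x * y = y ∧ y * x = y}

section local_monoid

variable {M : Type} [Monoid M] {x : M}

/-- the local monoid structure -/
@[reducible] def locMonoid (hx : x * x = x) : Monoid (LocM x) where
  mul y z := ⟨y.1 * z.1, by rw [← mul_assoc, y.2.1], by rw [mul_assoc, z.2.2]⟩
  one := ⟨x, hx, hx⟩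
  mul_assoc y z w := Subtype.ext (mul_assoc _ _ _)
  one_mul y := Subtype.ext y.2.1
  mul_one y := Subtype.ext y.2.2

end local_monoid

theorem synEq_iff {A : Type} {L : Set (List A)} {w w' : List A} :
    SynEq L w w' ↔ Pool.Agent.GSHR.cls {L} w = Pool.Agent.GSHR.cls {L} w' := by
  rw [Pool.Agent.GSHR.cls_eq]
  constructor
  · rintro h _ rfl x y
    exact h x y
  · intro h x y
    exact h L rfl x y

/-- every idempotent of a finite syntactic monoid has its maximal subgroup -/
theorem exists_max {A : Type} {L : Set (List A)} (hL : FinData L) {e : List A}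
    (he : SynEq L (e ++ e) e) :
    ∃ (G : Type) (_ : Group G) (_ : Finite G) (val : List A → G), IsMaxSubgroup L e val := by
  classical
  have hfin : Finite (Pool.Agent.GSHR.Syn ({L} : Set (Set (List A)))) :=
    Pool.Agent.GSHR.syn_finite (Set.finite_singleton _) (by rintro _ rfl; exact hL)
  set x := Pool.Agent.GSHR.cls {L} e with hxdef
  have hx : x * x = x := by
    rw [hxdef, ← Pool.Agent.GSHR.cls_append, ← synEq_iff]
    exact he
  let mon : Monoid (LocM x) := locMonoid hx
  have hfinL : Finite (LocM x) := by unfold LocM; infer_instance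
  have key : ∀ w, InGroup L e w ↔ ∃ g : (LocM x)ˣ, g.1.1 = Pool.Agent.GSHR.cls {L} w := by
    intro w
    constructor
    · rintro ⟨h1, y, h2, h3⟩
      rw [synEq_iff] at h1 h2 h3
      simp only [Pool.Agent.GSHR.cls_append, ← hxdef] at h1 h2 h3
      set a := Pool.Agent.GSHR.cls {L} w
      set z := Pool.Agent.GSHR.cls {L} y
      have ha1 : x * a = a := by
        conv_lhs => rw [← h1]
        rw [← mul_assoc, ← mul_assoc, hx, h1]
      have ha2 : a * x = a := by
        conv_lhs => rw [← h1]
        rw [mul_assoc, hx, h1]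
      refine ⟨⟨⟨a, ha1, ha2⟩, ⟨x * z * x, ?_, ?_⟩, ?_, ?_⟩, rfl⟩
      · rw [← mul_assoc, ← mul_assoc, hx]
      · rw [mul_assoc, hx]
      · apply Subtype.ext
        show a * (x * z * x) = x
        rw [← mul_assoc, ← mul_assoc, ha2, h2, hx]
      · apply Subtype.ext
        show x * z * x * a = x
        rw [mul_assoc, ha1, mul_assoc, h3, hx]
    · rintro ⟨g, hg⟩
      obtain ⟨y, hy⟩ := Pool.Agent.GSHR.cls_surj (g⁻¹).1.1
      refine ⟨?_, y, ?_, ?_⟩
      · rw [synEq_iff]
        simp only [Pool.Agent.GSHR.cls_append, ← hxdef]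
        rw [← hg, g.1.2.1, g.1.2.2]
      · rw [synEq_iff]
        simp only [Pool.Agent.GSHR.cls_append, ← hxdef]
        rw [← hg, hy]
        exact congrArg Subtype.val g.mul_inv
      · rw [synEq_iff]
        simp only [Pool.Agent.GSHR.cls_append, ← hxdef]
        rw [← hg, hy]
        exact congrArg Subtype.val g.inv_mul
  let val : List A → (LocM x)ˣ := fun w =>
    if h : ∃ g : (LocM x)ˣ, g.1.1 = Pool.Agent.GSHR.cls {L} w then h.choose else 1
  have hval : ∀ w, InGroup L e w → (val w).1.1 = Pool.Agent.GSHR.cls {L} w := by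
    intro w hw
    have h := (key w).1 hw
    show (if h : ∃ g : (LocM x)ˣ, g.1.1 = Pool.Agent.GSHR.cls {L} w
      then h.choose else 1).1.1 = _
    rw [dif_pos h]
    exact h.choose_spec
  have hext : ∀ g g' : (LocM x)ˣ, g.1.1 = g'.1.1 → g = g' := fun g g' h =>
    Units.ext (Subtype.ext h)
  refine ⟨(LocM x)ˣ, inferInstance, inferInstance, val, ⟨he, ?_, ?_, ?_⟩⟩
  · intro w w' hw hw'
    apply hext
    have hww : InGroup L e (w ++ w') := by
      rw [key]
      obtain ⟨g, hg⟩ := (key w).1 hw
      obtain ⟨g', hg'⟩ := (key w').1 hw'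
      refine ⟨g * g', ?_⟩
      show g.1.1 * g'.1.1 = _
      rw [hg, hg', Pool.Agent.GSHR.cls_append]
    rw [hval _ hww]
    show _ = (val w).1.1 * (val w').1.1
    rw [hval _ hw, hval _ hw', Pool.Agent.GSHR.cls_append]
  · intro g
    obtain ⟨w, hw⟩ := Pool.Agent.GSHR.cls_surj g.1.1
    have h1 : InGroup L e w := (key w).2 ⟨g, hw.symm⟩
    exact ⟨w, h1, hext _ _ (by rw [hval _ h1, hw])⟩
  · intro w w' hw hw'
    rw [synEq_iff, ← hval w hw, ← hval w' hw']
    exact ⟨fun h => by rw [h], fun h => hext _ _ h⟩

theorem inGroup_mul {A : Type} {L : Set (List A)} {e : List A} (hidem : SynEq L (e ++ e) e)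
    {u v : List A} (hu : InGroup L e u) (hv : InGroup L e v) : InGroup L e (u ++ v) := by
  obtain ⟨hu1, y, hu2, hu3⟩ := hu
  obtain ⟨hv1, z, hv2, hv3⟩ := hv
  have he := hidem
  rw [synEq_iff] at hu1 hu2 hu3 hv1 hv2 hv3 he
  simp only [Pool.Agent.GSHR.cls_append] at hu1 hu2 hu3 hv1 hv2 hv3 he
  set x := Pool.Agent.GSHR.cls {L} e
  set a := Pool.Agent.GSHR.cls {L} u
  set b := Pool.Agent.GSHR.cls {L} v
  have ha1 : x * a = a := by
    conv_lhs => rw [← hu1]
    rw [← mul_assoc, ← mul_assoc, he, hu1]
  have ha2 : a * x = a := by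
    conv_lhs => rw [← hu1]
    rw [mul_assoc, he, hu1]
  have hb1 : x * b = b := by
    conv_lhs => rw [← hv1]
    rw [← mul_assoc, ← mul_assoc, he, hv1]
  have hb2 : b * x = b := by
    conv_lhs => rw [← hv1]
    rw [mul_assoc, he, hv1]
  refine ⟨?_, z ++ e ++ y, ?_, ?_⟩
  · rw [synEq_iff]
    simp only [Pool.Agent.GSHR.cls_append]
    rw [← mul_assoc, ha1, mul_assoc, hb2]
  · rw [synEq_iff]
    simp only [Pool.Agent.GSHR.cls_append]
    calc a * b * (Pool.Agent.GSHR.cls {L} z * x * Pool.Agent.GSHR.cls {L} y)
        = a * (b * Pool.Agent.GSHR.cls {L} z) * x * Pool.Agent.GSHR.cls {L} y := by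
          simp only [mul_assoc]
      _ = x := by rw [hv2, mul_assoc a, he, ha2, hu2]
  · rw [synEq_iff]
    simp only [Pool.Agent.GSHR.cls_append]
    calc Pool.Agent.GSHR.cls {L} z * x * Pool.Agent.GSHR.cls {L} y * (a * b)
        = Pool.Agent.GSHR.cls {L} z * (x * (Pool.Agent.GSHR.cls {L} y * a)) * b := by
          simp only [mul_assoc]
      _ = x := by rw [hu3, he, mul_assoc, hb1, hv3]

theorem finite_of_max {A : Type} {L : Set (List A)} (hL : FinData L) {G : Type} [Group G]
    {e : List A} {val : List A → G} (hmax : IsMaxSubgroup L e val) : Finite G := by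
  have hfin : Finite (Pool.Agent.GSHR.Syn ({L} : Set (Set (List A)))) :=
    Pool.Agent.GSHR.syn_finite (Set.finite_singleton _) (by rintro _ rfl; exact hL)
  choose w hw1 hw2 using hmax.onto
  refine Finite.of_injective (fun g => Pool.Agent.GSHR.cls {L} (w g)) ?_
  intro g g' h
  have h1 := (hmax.inj _ _ (hw1 g) (hw1 g')).2 (synEq_iff.2 h)
  rwa [hw2, hw2] at h1

theorem criterion_all {A : Type} [Finite A] {n : ℕ} {L : Set (List A)} (hL : FinData L)
    (hR : ∀ (G : Type) [Group G] (e : List A) (val : List A → G), IsMaxSubgroup L e val →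
      ∃ F : Set (Set (List A)), F.Finite ∧ (∀ K ∈ F, Ht n K) ∧
        ∀ w w' : List A, InGroup L e w → InGroup L e w' →
          (∀ K ∈ F, SynEq (star K) w w') → val w = val w') : Ht (n + 1) L := by
  classical
  have hfin : Finite (Pool.Agent.GSHR.Syn ({L} : Set (Set (List A)))) :=
    Pool.Agent.GSHR.syn_finite (Set.finite_singleton _) (by rintro _ rfl; exact hL)
  -- one representing word for each idempotent
  let E : Type := {x : Pool.Agent.GSHR.Syn ({L} : Set (Set (List A))) // x * x = x}
  have hw : ∀ x : E, ∃ e : List A, Pool.Agent.GSHR.cls {L} e = x.1 := fun x =>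
    Pool.Agent.GSHR.cls_surj x.1
  choose wd hwd using hw
  have hmax : ∀ x : E, ∃ (G : Type) (_ : Group G) (_ : Finite G) (val : List A → G),
      IsMaxSubgroup L (wd x) val := by
    intro x
    apply exists_max hL
    rw [synEq_iff, Pool.Agent.GSHR.cls_append, hwd, x.2]
  choose G hG hGf val hval using hmax
  choose F hF1 hF2 hF3 using fun x : E => hR (G x) (wd x) (val x) (hval x)
  have hEfin : Finite E := by show Finite {x // _}; infer_instance
  refine Pool.Agent.GSHR.criterion hL (F := ⋃ x : E, F x) (Set.finite_iUnion hF1) (by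
    intro K hK
    obtain ⟨x, hx⟩ := Set.mem_iUnion.1 hK
    exact hF2 x K hx) ?_
  intro u hu
  obtain ⟨k, hk, hk2⟩ := exists_idem_pow (S := {L}) (Set.finite_singleton _)
    (by rintro _ rfl; exact hL) u
  obtain ⟨k, rfl⟩ : ∃ d, k = d + 1 := ⟨k - 1, by omega⟩
  refine ⟨k + 1, ?_⟩
  set a := Pool.Agent.GSHR.cls {L} u with ha
  have hak : a ^ (k + 1) * a ^ (k + 1) = a ^ (k + 1) := by
    have := Pool.Agent.GSHR.cls_eq.2 hk2
    rw [Pool.Agent.GSHR.cls_append, Pool.Agent.GSHR.cls_rep] at this
    exact this.symm
  let x : E := ⟨a ^ (k + 1), hak⟩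
  have hx : Pool.Agent.GSHR.cls {L} (wd x) = a ^ (k + 1) := hwd x
  have g1 : InGroup L (wd x) (rep (k + 1) u) := by
    refine ⟨?_, rep (k + 1) u, ?_, ?_⟩
    · rw [synEq_iff]
      simp only [Pool.Agent.GSHR.cls_append, Pool.Agent.GSHR.cls_rep, hx]
      rw [hak, hak]
    · rw [synEq_iff]
      simp only [Pool.Agent.GSHR.cls_append, Pool.Agent.GSHR.cls_rep, hx]
      exact hak
    · rw [synEq_iff]
      simp only [Pool.Agent.GSHR.cls_append, Pool.Agent.GSHR.cls_rep, hx]
      exact hak
  have hpow : ∀ j, a ^ (k + 1) * a ^ (k + 1 + j) = a ^ (k + 1 + j) := by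
    intro j
    rw [pow_add a (k + 1) j, ← mul_assoc, hak]
  have hpow' : ∀ j, a ^ (k + 1 + j) * a ^ (k + 1) = a ^ (k + 1 + j) := by
    intro j
    rw [← pow_add, add_comm (k + 1 + j) (k + 1), pow_add, hpow]
  have g2 : InGroup L (wd x) (rep (k + 1 + 1) u) := by
    refine ⟨?_, rep (k + 1 + k) u, ?_, ?_⟩
    · rw [synEq_iff]
      simp only [Pool.Agent.GSHR.cls_append, Pool.Agent.GSHR.cls_rep, hx]
      rw [hpow 1, hpow' 1]
    · rw [synEq_iff]
      simp only [Pool.Agent.GSHR.cls_append, Pool.Agent.GSHR.cls_rep, hx]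
      rw [← pow_add, show k + 1 + 1 + (k + 1 + k) = (k + 1) + (k + 1) + (k + 1) by ring,
        pow_add, pow_add, hak, hak]
    · rw [synEq_iff]
      simp only [Pool.Agent.GSHR.cls_append, Pool.Agent.GSHR.cls_rep, hx]
      rw [← pow_add, show k + 1 + k + (k + 1 + 1) = (k + 1) + (k + 1) + (k + 1) by ring,
        pow_add, pow_add, hak, hak]
  have h1 : val x (rep (k + 1) u) = val x (rep (k + 1 + 1) u) := by
    refine hF3 x _ _ g1 g2 (fun K hK y z => ?_)
    have hc : Cg (star '' (⋃ x : E, F x)) (rep (k + 1) u) (rep (k + 1 + 1) u) := by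
      rw [rep_succ (k + 1), rep_succ k, ← List.append_assoc]
      exact hu.append (Cg.refl _ _)
    exact hc (star K) ⟨K, Set.mem_iUnion.2 ⟨x, hK⟩, rfl⟩ y z
  have h2 := ((hval x).inj _ _ g1 g2).1 h1
  rintro _ rfl y z
  exact (h2 y z).symm

theorem SynEq.refl {A : Type} (L : Set (List A)) (u : List A) : SynEq L u u := fun _ _ => Iff.rfl

theorem SynEq.symm {A : Type} {L : Set (List A)} {u v : List A} (h : SynEq L u v) :
    SynEq L v u := fun x y => (h x y).symm

theorem SynEq.trans {A : Type} {L : Set (List A)} {u v w : List A} (h : SynEq L u v)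
    (h' : SynEq L v w) : SynEq L u w := fun x y => (h x y).trans (h' x y)

theorem SynEq.ctx {A : Type} {L : Set (List A)} {u v : List A} (h : SynEq L u v)
    (x y : List A) : SynEq L (x ++ u ++ y) (x ++ v ++ y) := by
  intro a b
  have := h (a ++ x) (y ++ b)
  simpa only [List.append_assoc] using this

theorem SynEq.append {A : Type} {L : Set (List A)} {u v u' v' : List A} (h : SynEq L u v)
    (h' : SynEq L u' v') : SynEq L (u ++ u') (v ++ v') := by
  have e1 := h.ctx [] u'
  have e2 := h'.ctx v []
  simp only [List.nil_append, List.append_nil] at e1 e2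
  exact e1.trans e2

theorem InGroup.congr {A : Type} {L : Set (List A)} {e u v : List A} (h : SynEq L u v)
    (hu : InGroup L e u) : InGroup L e v := by
  obtain ⟨h1, y, h2, h3⟩ := hu
  exact ⟨(((h.ctx e e).symm.trans h1).trans h), y,
    (h.append (SynEq.refl L y)).symm.trans h2, ((SynEq.refl L y).append h).symm.trans h3⟩

/-- one-sided inverses in the local monoid of a finite monoid are two-sided -/
theorem local_inv {S : Type} [Monoid S] [Finite S] {e a r : S} (he : e * e = e)
    (ha1 : e * a = a) (ha2 : a * e = a) (hr1 : e * r = r) (hr2 : r * e = r)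
    (h : a * r = e) : r * a = e := by
  let mon : Monoid (LocM e) := locMonoid he
  have hfin : Finite (LocM e) := by unfold LocM; infer_instance
  let r' : LocM e := ⟨r, hr1, hr2⟩
  let a' : LocM e := ⟨a, ha1, ha2⟩
  have har : a' * r' = 1 := Subtype.ext h
  have hinj : Function.Injective (fun z : LocM e => r' * z) := by
    intro z z' hz
    have h1 : a' * (r' * z) = a' * (r' * z') := congrArg (fun t => a' * t) hz
    rw [← mul_assoc, ← mul_assoc, har, one_mul, one_mul] at h1
    exact h1
  obtain ⟨z, hz⟩ := Finite.surjective_of_injective hinj 1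
  have hz' : r' * z = 1 := hz
  have h2 : z = a' := by
    have : a' * (r' * z) = a' * 1 := by rw [hz']
    rw [← mul_assoc, har, one_mul, mul_one] at this
    exact this
  rw [h2] at hz'
  exact congrArg Subtype.val hz'

/-- every language recognised by the syntactic monoid of a language of height `m + 1` has height
at most `m + 1` -/
theorem recognised {A : Type} [Finite A] {m : ℕ} {L E : Set (List A)} (h : Ht (m + 1) L)
    (hE : ∀ u v, SynEq L u v → SynEq E u v) : Ht (m + 1) E := by
  obtain ⟨F, hF, hH, habs⟩ := h.abs m rfl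
  have hD : FinData E := by
    obtain ⟨D, hD, d, hd⟩ := h.finData
    exact ⟨D, hD, d, fun u v huv x y =>
      ((hE u v (fun a b => ⟨hd u v huv a b, hd v u huv.symm a b⟩)) x y).1⟩
  refine Pool.Agent.GSHR.criterion hD hF hH (fun u hu => ?_)
  obtain ⟨n0, hn0⟩ := habs u hu
  refine ⟨n0, ?_⟩
  rintro _ rfl x y
  exact ((hE _ _ (fun a b => hn0 a b)) x y).symm

section monoid

variable {S : Type} [Monoid S]

/-- the maximal subgroup at `e` is not trivial -/
def Nontriv (e : S) : Prop := ∃ w w', e * w * e = w ∧ w * w' = e ∧ w' * w = e ∧ w ≠ e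

/-- factors of the idempotent `e` are units of the local monoid at `e` -/
theorem unit_of_factor [Finite S] (hDO : ∀ e f : S, e * e = e → f * f = f →
      (∃ x y, x * e * y = f) → (∃ x y, x * f * y = e) → Nontriv e → e * f * e = e)
    {e x u y : S} (he : e * e = e) (hnt : Nontriv e) (h : x * u * y = e) :
    ∃ r, e * r = r ∧ r * e = r ∧ e * u * e * r = e ∧ r * (e * u * e) = e := by
  set p := e * x with hp
  set q := y * e with hq
  have ep : e * p = p := by rw [hp, ← mul_assoc, he]
  have qe : q * e = q := by rw [hq, mul_assoc, he]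
  have puq : p * u * q = e := by
    calc p * u * q = e * (x * u * y) * e := by rw [hp, hq]; simp only [mul_assoc]
      _ = e := by rw [h, he, he]
  have f1 : u * q * p * (u * q * p) = u * q * p := by
    calc u * q * p * (u * q * p) = u * q * (p * u * q) * p := by simp only [mul_assoc]
      _ = u * (q * e) * p := by rw [puq]; simp only [mul_assoc]
      _ = u * q * p := by rw [qe]
  have k1 : e * (u * q * p) * e = e := by
    refine hDO e (u * q * p) he f1 ⟨u * q, p, ?_⟩ ⟨p, u * q, ?_⟩ hnt
    · rw [mul_assoc, ep]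
    · calc p * (u * q * p) * (u * q) = (p * u * q) * (p * u * q) := by simp only [mul_assoc]
        _ = e := by rw [puq, he]
  have k1' : e * u * q * p * e = e := by
    calc e * u * q * p * e = e * (u * q * p) * e := by simp only [mul_assoc]
      _ = e := k1
  have h1 : q * p * e * u * (q * p * e * u) = q * p * e * u := by
    calc q * p * e * u * (q * p * e * u) = q * p * (e * u * q * p * e) * u := by
          simp only [mul_assoc]
      _ = q * p * e * u := by rw [k1']
  have k2 : e * (q * p * e * u) * e = e := by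
    refine hDO e (q * p * e * u) he h1 ⟨q * p, u, rfl⟩ ⟨e * u, q * p * e, ?_⟩ hnt
    calc e * u * (q * p * e * u) * (q * p * e)
        = (e * u * q * p * e) * (u * q * p * e) := by simp only [mul_assoc]
      _ = e * (u * q * p * e) := by rw [k1']
      _ = e * u * q * p * e := by simp only [mul_assoc]
      _ = e := k1'
  have er : e * (e * q * p * e) = e * q * p * e := by
    calc e * (e * q * p * e) = e * e * q * p * e := by simp only [mul_assoc]
      _ = e * q * p * e := by rw [he]
  have re : e * q * p * e * e = e * q * p * e := by rw [mul_assoc, he]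
  have ru : e * q * p * e * (e * u * e) = e := by
    calc e * q * p * e * (e * u * e) = e * q * p * (e * e) * u * e := by simp only [mul_assoc]
      _ = e * (q * p * e * u) * e := by rw [he]; simp only [mul_assoc]
      _ = e := k2
  refine ⟨e * q * p * e, er, re, ?_, ru⟩
  refine local_inv he er re ?_ ?_ ru
  · calc e * (e * u * e) = e * e * u * e := by simp only [mul_assoc]
      _ = e * u * e := by rw [he]
  · rw [mul_assoc, he]

/-- the map `u ↦ eue` is multiplicative on the words which it sends to units -/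
theorem local_mul (hDO : ∀ e f : S, e * e = e → f * f = f →
      (∃ x y, x * e * y = f) → (∃ x y, x * f * y = e) → Nontriv e → e * f * e = e)
    {e u v a b : S} (he : e * e = e) (hnt : Nontriv e) (ea : e * a = a) (ae : a * e = a) (eb : e * b = b)
    (be : b * e = b) (u1 : e * u * e * a = e) (u2 : a * (e * u * e) = e)
    (v1 : e * v * e * b = e) (v2 : b * (e * v * e) = e) :
    e * u * v * e = e * u * e * (e * v * e) := by
  have aua : a * u * a = a := by
    calc a * u * a = (a * e) * u * (e * a) := by rw [ea, ae]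
      _ = a * (e * u * e) * a := by simp only [mul_assoc]
      _ = a := by rw [u2, ea]
  have bvb : b * v * b = b := by
    calc b * v * b = (b * e) * v * (e * b) := by rw [eb, be]
      _ = b * (e * v * e) * b := by simp only [mul_assoc]
      _ = b := by rw [v2, eb]
  have kk : a * u * (a * u) = a * u := by
    calc a * u * (a * u) = a * u * a * u := by simp only [mul_assoc]
      _ = a * u := by rw [aua]
  have ll : v * b * (v * b) = v * b := by
    calc v * b * (v * b) = v * (b * v * b) := by simp only [mul_assoc]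
      _ = v * b := by rw [bvb]
  have ek : e * (a * u) = a * u := by rw [← mul_assoc, ea]
  have ke : a * u * e = e := by
    calc a * u * e = (a * e) * u * e := by rw [ae]
      _ = a * (e * u * e) := by simp only [mul_assoc]
      _ = e := u2
  have le : v * b * e = v * b := by rw [mul_assoc, be]
  have el : e * (v * b) = e := by
    calc e * (v * b) = e * v * (e * b) := by rw [eb]; simp only [mul_assoc]
      _ = e * v * e * b := by simp only [mul_assoc]
      _ = e := v1
  have hntk : Nontriv (a * u) := by
    obtain ⟨w, w', w1, w2, w3, w4⟩ := hnt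
    have ew : e * w = w := by
      conv_lhs => rw [← w1]
      rw [← mul_assoc, ← mul_assoc, he, w1]
    have we : w * e = w := by
      conv_lhs => rw [← w1]
      rw [mul_assoc, he, w1]
    have kw : a * u * w = w := by
      calc a * u * w = a * u * (e * w) := by rw [ew]
        _ = a * u * e * w := by simp only [mul_assoc]
        _ = w := by rw [ke, ew]
    have kw' : a * u * (e * w' * e) = e * w' * e := by
      calc a * u * (e * w' * e) = a * u * e * (w' * e) := by simp only [mul_assoc]
        _ = e * w' * e := by rw [ke]; simp only [mul_assoc]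
    refine ⟨w * (a * u), e * w' * e * (a * u), ?_, ?_, ?_, ?_⟩
    · calc a * u * (w * (a * u)) * (a * u) = a * u * w * (a * u * (a * u)) := by
            simp only [mul_assoc]
        _ = w * (a * u) := by rw [kw, kk]
    · calc w * (a * u) * (e * w' * e * (a * u)) = w * (a * u * (e * w' * e)) * (a * u) := by
            simp only [mul_assoc]
        _ = (w * e) * w' * (e * (a * u)) := by rw [kw']; simp only [mul_assoc]
        _ = a * u := by rw [we, w2, ek, ek]
    · calc e * w' * e * (a * u) * (w * (a * u)) = e * w' * e * (a * u * w) * (a * u) := by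
            simp only [mul_assoc]
        _ = e * (w' * (e * w)) * (a * u) := by rw [kw]; simp only [mul_assoc]
        _ = a * u := by rw [ew, w3, he, ek]
    · intro h
      apply w4
      calc w = w * (a * u * e) := by rw [ke, we]
        _ = w * (a * u) * e := by simp only [mul_assoc]
        _ = e := by rw [h, ke]
  have klk : a * u * (v * b) * (a * u) = a * u := by
    refine hDO (a * u) (v * b) kk ll ⟨v * b, e, ?_⟩ ⟨e, a * u, ?_⟩ hntk
    · rw [mul_assoc, ke, le]
    · rw [el, ek]
  have kl : a * u * (v * b) = e := by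
    calc a * u * (v * b) = a * u * (v * b * e) := by rw [le]
      _ = a * u * (v * b) * e := by simp only [mul_assoc]
      _ = a * u * (v * b) * (a * u * e) := by rw [ke]
      _ = a * u * (v * b) * (a * u) * e := by simp only [mul_assoc]
      _ = e := by rw [klk, ke]
  calc e * u * v * e = (e * u * e * a) * u * v * (b * (e * v * e)) := by
        rw [u1, v2]
    _ = e * u * e * (a * u * (v * b)) * (e * v * e) := by simp only [mul_assoc]
    _ = e * u * (e * e) * (e * v * e) := by rw [kl]; simp only [mul_assoc]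
    _ = e * u * e * (e * v * e) := by rw [he]

end monoid

section alphabet

variable {A : Type} {B : Set A}

/-- heights do not increase under restriction to a subalphabet -/
theorem ht_restrict {m : ℕ} {X : Set (List A)} (h : Ht m X) :
    Ht m {w : List B | w.map Subtype.val ∈ X} := by
  induction h with
  | empty n => exact Ht.empty n
  | one n =>
    convert Ht.one (A := B) n using 1
    ext w
    show w.map Subtype.val = [] ↔ w = []
    exact List.map_eq_nil_iff
  | letter n a =>
    by_cases ha : a ∈ B
    · convert Ht.letter n (⟨a, ha⟩ : B) using 1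
      ext w
      show w.map Subtype.val = [a] ↔ w = [⟨a, ha⟩]
      constructor
      · intro hw
        obtain ⟨b, rfl, hb⟩ := List.map_eq_singleton_iff.1 hw
        rw [show b = ⟨a, ha⟩ from Subtype.ext hb]
      · rintro rfl
        rfl
    · convert Ht.empty (A := B) n using 1
      ext w
      show w.map Subtype.val = [a] ↔ w ∈ (∅ : Set (List B))
      simp only [Set.mem_empty_iff_false, iff_false]
      intro hw
      obtain ⟨b, rfl, hb⟩ := List.map_eq_singleton_iff.1 hw
      exact ha (hb ▸ b.2)
  | compl _ ih => exact ih.compl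
  | union _ _ ih1 ih2 => exact ih1.union ih2
  | inter _ _ ih1 ih2 => exact ih1.inter ih2
  | @cat n K L _ _ ih1 ih2 =>
    convert ih1.cat ih2 using 1
    ext w
    constructor
    · rintro ⟨u, hu, v, hv, huv⟩
      obtain ⟨u', v', rfl, rfl, rfl⟩ := List.map_eq_append_iff.1 huv.symm
      exact ⟨u', hu, v', hv, rfl⟩
    · rintro ⟨u, hu, v, hv, rfl⟩
      exact ⟨_, hu, _, hv, (List.map_append).symm⟩
  | @star n K _ ih =>
    convert ih.star using 1
    ext w
    constructor
    · rintro ⟨l, hl, hw⟩
      have key : ∀ (l : List (List A)) (w : List B), (∀ u ∈ l, u ∈ K) →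
          l.flatten = w.map Subtype.val →
          w ∈ star {w : List B | w.map Subtype.val ∈ K} := by
        intro l
        induction l with
        | nil =>
          intro w _ h
          have : w = [] := List.map_eq_nil_iff.1 h.symm
          rw [this]
          exact nil_mem_star _
        | cons u l ihl =>
          intro w hl h
          rw [List.flatten_cons] at h
          obtain ⟨u', v', rfl, h1, h2⟩ := List.map_eq_append_iff.1 h.symm
          refine star_append (mem_star_of_mem ?_) (ihl v' (fun z hz => hl z (by simp [hz]))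
            h2.symm)
          show u'.map Subtype.val ∈ K
          rw [h1]
          exact hl u (by simp)
      exact key l w hl hw
    · rintro ⟨l, hl, rfl⟩
      refine ⟨l.map (List.map Subtype.val), ?_, ?_⟩
      · intro u hu
        obtain ⟨v, hv, rfl⟩ := List.mem_map.1 hu
        exact hl v hv
      · exact (List.map_flatten).symm

/-- heights do not increase under extension of the alphabet -/
theorem ht_extend [Finite A] {m : ℕ} {X : Set (List B)} (h : Ht m X) :
    Ht m (List.map Subtype.val '' X) := by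
  have hinj : Function.Injective (List.map (Subtype.val : B → A)) :=
    List.map_injective_iff.2 Subtype.val_injective
  induction h with
  | empty n => rw [Set.image_empty]; exact Ht.empty n
  | one n => rw [Set.image_singleton]; exact Ht.one n
  | letter n a => rw [Set.image_singleton]; exact Ht.letter n a.1
  | @compl n K _ ih =>
    convert (Ht.over n B).inter ih.compl using 1
    ext w
    constructor
    · rintro ⟨v, hv, rfl⟩
      refine ⟨?_, ?_⟩
      · intro a ha
        obtain ⟨b, -, rfl⟩ := List.mem_map.1 ha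
        exact b.2
      · rintro ⟨v', hv', h'⟩
        rw [hinj h'] at hv'
        exact hv hv'
    · rintro ⟨h1, h2⟩
      obtain ⟨v, rfl⟩ : ∃ v : List B, v.map Subtype.val = w := by
        refine ⟨w.attach.map (fun a => (⟨a.1, h1 a.1 a.2⟩ : B)), ?_⟩
        simp
      exact ⟨v, fun hv => h2 ⟨v, hv, rfl⟩, rfl⟩
  | union _ _ ih1 ih2 => rw [Set.image_union]; exact ih1.union ih2
  | inter _ _ ih1 ih2 => rw [Set.image_inter hinj]; exact ih1.inter ih2
  | @cat n K L _ _ ih1 ih2 =>
    convert ih1.cat ih2 using 1
    ext w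
    constructor
    · rintro ⟨_, ⟨u, hu, v, hv, rfl⟩, rfl⟩
      exact ⟨_, ⟨u, hu, rfl⟩, _, ⟨v, hv, rfl⟩, (List.map_append).symm⟩
    · rintro ⟨_, ⟨u, hu, rfl⟩, _, ⟨v, hv, rfl⟩, rfl⟩
      exact ⟨u ++ v, ⟨u, hu, v, hv, rfl⟩, List.map_append⟩
  | @star n K _ ih =>
    convert ih.star using 1
    ext w
    constructor
    · rintro ⟨_, ⟨l, hl, rfl⟩, rfl⟩
      refine ⟨l.map (List.map Subtype.val), ?_, (List.map_flatten).symm⟩
      intro u hu
      obtain ⟨v, hv, rfl⟩ := List.mem_map.1 hu
      exact ⟨v, hl v hv, rfl⟩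
    · rintro ⟨l, hl, rfl⟩
      induction l with
      | nil => exact ⟨[], nil_mem_star _, rfl⟩
      | cons u l ihl =>
        obtain ⟨v, hv, hv2⟩ := ihl (fun z hz => hl z (by simp [hz]))
        obtain ⟨u', hu', hu2⟩ := hl u (by simp)
        refine ⟨u' ++ v, star_append (mem_star_of_mem hu') hv, ?_⟩
        rw [List.map_append, hu2, hv2, List.flatten_cons]

end alphabet

/-- the hypothesis in the syntactic monoid -/
theorem rect_monoid {A : Type} {L : Set (List A)} (h : RectGroups L) :
    ∀ e f : Pool.Agent.GSHR.Syn ({L} : Set (Set (List A))), e * e = e → f * f = f →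
      (∃ x y, x * e * y = f) → (∃ x y, x * f * y = e) → Nontriv e → e * f * e = e := by
  intro e f he hf hef hfe hnt
  obtain ⟨e, rfl⟩ := Pool.Agent.GSHR.cls_surj e
  obtain ⟨f, rfl⟩ := Pool.Agent.GSHR.cls_surj f
  obtain ⟨x, y, h1⟩ := hef
  obtain ⟨x', y', h2⟩ := hfe
  obtain ⟨w, w', w1, w2, w3, w4⟩ := hnt
  obtain ⟨x, rfl⟩ := Pool.Agent.GSHR.cls_surj x
  obtain ⟨y, rfl⟩ := Pool.Agent.GSHR.cls_surj y
  obtain ⟨x', rfl⟩ := Pool.Agent.GSHR.cls_surj x'
  obtain ⟨y', rfl⟩ := Pool.Agent.GSHR.cls_surj y'
  obtain ⟨w, rfl⟩ := Pool.Agent.GSHR.cls_surj w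
  obtain ⟨w', rfl⟩ := Pool.Agent.GSHR.cls_surj w'
  have h3 := h e f (synEq_iff.2 he) (synEq_iff.2 hf) ⟨x, y, synEq_iff.2 h1⟩
    ⟨x', y', synEq_iff.2 h2⟩ ⟨w, ⟨synEq_iff.2 w1, w', synEq_iff.2 w2, synEq_iff.2 w3⟩,
      fun h => w4 (synEq_iff.1 h)⟩
  exact synEq_iff.1 h3

/-- a language which has not height `n + 1` has a maximal subgroup with an element `g ≠ 1` which
no finite family of stars of languages of height `n` tells from `1` -/
theorem invisible {A : Type} [Finite A] {n : ℕ} {L : Set (List A)} (hL : FinData L)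
    (h1 : ¬ Ht (n + 1) L) :
    ∃ (G : Type) (_ : Group G) (_ : Finite G) (e : List A) (val : List A → G),
      IsMaxSubgroup L e val ∧ ∃ g : G, g ≠ 1 ∧ ∀ F : Set (Set (List A)), F.Finite →
        (∀ K ∈ F, Ht n K) → ∃ w w' : List A, InGroup L e w ∧ InGroup L e w' ∧ val w = 1 ∧
          val w' = g ∧ ∀ K ∈ F, SynEq (star K) w w' := by
  classical
  obtain ⟨G₀, iG, e, val₀, hmax₀, hbad⟩ : ∃ (G : Type) (_ : Group G) (e : List A)
      (val : List A → G), IsMaxSubgroup L e val ∧ ∀ F : Set (Set (List A)), F.Finite →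
        (∀ K ∈ F, Ht n K) → ∃ w w' : List A, InGroup L e w ∧ InGroup L e w' ∧
          (∀ K ∈ F, SynEq (star K) w w') ∧ val w ≠ val w' := by
    by_contra hcon
    refine h1 (criterion_all hL ?_)
    intro G _ e val hmax
    by_contra hc
    refine hcon ⟨G, inferInstance, e, val, hmax, fun F hF hH => ?_⟩
    by_contra hd
    refine hc ⟨F, hF, hH, fun w w' hw hw' hww => ?_⟩
    by_contra hne
    exact hd ⟨w, w', hw, hw', hww, hne⟩
  have hfin₀ : Finite G₀ := finite_of_max hL hmax₀
  refine ⟨G₀, iG, hfin₀, e, val₀, hmax₀, ?_⟩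
  by_contra hcon
  have hall : ∀ g : {g : G₀ // g ≠ 1}, ∃ F : Set (Set (List A)), F.Finite ∧
      (∀ K ∈ F, Ht n K) ∧ ∀ w w' : List A, InGroup L e w → InGroup L e w' → val₀ w = 1 →
        val₀ w' = g.1 → ¬ ∀ K ∈ F, SynEq (star K) w w' := by
    rintro ⟨g, hg⟩
    by_contra hc
    refine hcon ⟨g, hg, fun F hF hH => ?_⟩
    by_contra hd
    refine hc ⟨F, hF, hH, fun w w' hw hw' e1 e2 hww => ?_⟩
    exact hd ⟨w, w', hw, hw', e1, e2, hww⟩
  choose F hF hH hno using hall
  obtain ⟨w, w', hw, hw', hww, hne⟩ := hbad (⋃ g, F g) (Set.finite_iUnion hF) (by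
    intro K hK
    obtain ⟨g, hg⟩ := Set.mem_iUnion.1 hK
    exact hH g K hg)
  obtain ⟨v, hv, hv1⟩ := hmax₀.onto (val₀ w)⁻¹
  have hne' : (val₀ w)⁻¹ * val₀ w' ≠ 1 := by
    rw [ne_eq, inv_mul_eq_one]
    exact hne
  refine hno ⟨_, hne'⟩ (v ++ w) (v ++ w') (inGroup_mul hmax₀.idem hv hw)
    (inGroup_mul hmax₀.idem hv hw') (by rw [hmax₀.mul _ _ hv hw, hv1, inv_mul_cancel])
    (by rw [hmax₀.mul _ _ hv hw', hv1]) (fun K hK => ?_)
  exact (SynEq.refl _ v).append (hww K (Set.mem_iUnion.2 ⟨_, hK⟩))

/-- the syntactic congruence of a group language -/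
theorem synEq_group {B G : Type} [Group G] (φ : B → G)
    (hφ : ∀ g : G, ∃ w : List B, (w.map φ).prod = g) (u v : List B) :
    SynEq {w : List B | (w.map φ).prod = 1} u v ↔ (u.map φ).prod = (v.map φ).prod := by
  have key : ∀ x w y : List B, x ++ w ++ y ∈ {w : List B | (w.map φ).prod = 1} ↔
      (x.map φ).prod * (w.map φ).prod * (y.map φ).prod = 1 := by
    intro x w y
    show ((x ++ w ++ y).map φ).prod = 1 ↔ _
    rw [List.map_append, List.map_append, List.prod_append, List.prod_append]
  constructor
  · intro h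
    obtain ⟨x, hx⟩ := hφ (u.map φ).prod⁻¹
    have h1 := (h x []).1 ((key x u []).2 (by rw [hx]; simp))
    rw [key, hx, List.map_nil, List.prod_nil, mul_one, inv_mul_eq_one] at h1
    exact h1
  · intro h x y
    rw [key, key, h]

/-- the letters `a` for which `eae` lies in the maximal subgroup with identity `e` -/
def letters {A : Type} (L : Set (List A)) (e : List A) : Set A :=
  {a | InGroup L e (e ++ [a] ++ e)}

/-- The group language at the idempotent `e`, over the alphabet `letters L e`: the words
`a₁…aₖ` such that the product of the values of `e a₁ e`, …, `e aₖ e` is `1`. -/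
def groupLanguage {A G : Type} [Group G] (L : Set (List A)) (e : List A) (val : List A → G) :
    Set (List (letters L e)) :=
  {w | (w.map (fun a : letters L e => val (e ++ [a.1] ++ e))).prod = 1}

/-- the words of the maximal subgroup and the group language -/
theorem local_facts {A : Type} {L : Set (List A)} (hL : FinData L) (hR : RectGroups L)
    {G : Type} [Group G] [Nontrivial G] {e : List A} {val : List A → G}
    (hmax : IsMaxSubgroup L e val) :
    (∀ g : G, ∃ w : List (letters L e),
      (w.map (fun a : letters L e => val (e ++ [a.1] ++ e))).prod = g) ∧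
    ∃ E' : Set (List A), (∀ u v, SynEq L u v → SynEq E' u v) ∧
      (∀ w, InGroup L e w → (w ∈ E' ↔ val w = 1)) ∧
      groupLanguage L e val = {w | w.map Subtype.val ∈ E'} ∧
      List.map Subtype.val '' groupLanguage L e val = E' := by
  classical
  have hfin : Finite (Pool.Agent.GSHR.Syn ({L} : Set (Set (List A)))) :=
    Pool.Agent.GSHR.syn_finite (Set.finite_singleton _) (by rintro _ rfl; exact hL)
  have hS := rect_monoid hR
  obtain ⟨g, hg1⟩ := exists_ne (1 : G)
  have he := synEq_iff.1 hmax.idem
  rw [Pool.Agent.GSHR.cls_append] at he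
  have heg : InGroup L e e := ⟨(hmax.idem.append (SynEq.refl L e)).trans hmax.idem, e,
    hmax.idem, hmax.idem⟩
  have hval1 : val e = 1 := by
    have h5 := (hmax.inj _ _ (inGroup_mul hmax.idem heg heg) heg).2 hmax.idem
    rw [hmax.mul _ _ heg heg] at h5
    simpa using h5
  have hnt : Nontriv (Pool.Agent.GSHR.cls {L} e) := by
    obtain ⟨w, hw, hwg⟩ := hmax.onto g
    have hne : ¬ SynEq L w e := fun h => hg1 (by
      rw [← hwg, (hmax.inj _ _ hw heg).2 h, hval1])
    obtain ⟨w1, w', w2, w3⟩ := hw
    exact ⟨Pool.Agent.GSHR.cls {L} w, Pool.Agent.GSHR.cls {L} w', synEq_iff.1 w1,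
      synEq_iff.1 w2, synEq_iff.1 w3, fun h => hne (synEq_iff.2 h)⟩
  have hfac : ∀ x u y : List A, SynEq L (x ++ u ++ y) e → InGroup L e (e ++ u ++ e) := by
    intro x u y h
    rw [synEq_iff] at h
    simp only [Pool.Agent.GSHR.cls_append] at h
    obtain ⟨r, -, -, r1, r2⟩ := unit_of_factor hS he hnt h
    obtain ⟨r, rfl⟩ := Pool.Agent.GSHR.cls_surj r
    refine ⟨?_, r, ?_, ?_⟩
    · rw [synEq_iff]
      simp only [Pool.Agent.GSHR.cls_append]
      rw [← mul_assoc, ← mul_assoc, he, mul_assoc, he]
    · rw [synEq_iff]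
      simp only [Pool.Agent.GSHR.cls_append]
      exact r1
    · rw [synEq_iff]
      simp only [Pool.Agent.GSHR.cls_append]
      exact r2
  have hinv : ∀ u, InGroup L e (e ++ u ++ e) →
      ∃ a : Pool.Agent.GSHR.Syn ({L} : Set (Set (List A))),
        Pool.Agent.GSHR.cls {L} e * a = a ∧ a * Pool.Agent.GSHR.cls {L} e = a ∧
        Pool.Agent.GSHR.cls {L} e * Pool.Agent.GSHR.cls {L} u * Pool.Agent.GSHR.cls {L} e * a =
          Pool.Agent.GSHR.cls {L} e ∧
        a * (Pool.Agent.GSHR.cls {L} e * Pool.Agent.GSHR.cls {L} u *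
          Pool.Agent.GSHR.cls {L} e) = Pool.Agent.GSHR.cls {L} e := by
    rintro u ⟨-, y, h3, h4⟩
    have h5 : SynEq L (e ++ u ++ (e ++ y)) e := by
      simpa only [List.append_assoc] using h3
    rw [synEq_iff] at h5
    simp only [Pool.Agent.GSHR.cls_append] at h5
    exact unit_of_factor hS he hnt (by simpa only [mul_assoc] using h5)
  have hmulw : ∀ u v, InGroup L e (e ++ u ++ e) → InGroup L e (e ++ v ++ e) →
      SynEq L (e ++ (u ++ v) ++ e) ((e ++ u ++ e) ++ (e ++ v ++ e)) := by
    intro u v hu hv
    obtain ⟨a, ea, ae, a1, a2⟩ := hinv u hu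
    obtain ⟨b, eb, be, b1, b2⟩ := hinv v hv
    rw [synEq_iff]
    simp only [Pool.Agent.GSHR.cls_append]
    have := local_mul hS he hnt ea ae eb be a1 a2 b1 b2
    simpa only [mul_assoc] using this
  set B : Set A := {a | InGroup L e (e ++ [a] ++ e)} with hBdef
  let φ : B → G := fun a => val (e ++ [a.1] ++ e)
  have hB : ∀ w : List B, InGroup L e (e ++ w.map Subtype.val ++ e) ∧
      val (e ++ w.map Subtype.val ++ e) = (w.map φ).prod := by
    intro w
    induction w with
    | nil =>
      have h3 : SynEq L e (e ++ [] ++ e) := by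
        rw [List.append_nil]; exact hmax.idem.symm
      have h4 := InGroup.congr h3 heg
      refine ⟨h4, ?_⟩
      rw [List.map_nil, List.map_nil, List.prod_nil, ← (hmax.inj _ _ heg h4).2 h3, hval1]
    | cons a w ih =>
      obtain ⟨i1, i2⟩ := ih
      have ha : InGroup L e (e ++ [a.1] ++ e) := a.2
      have h3 := hmulw [a.1] (w.map Subtype.val) ha i1
      have h4 := inGroup_mul hmax.idem ha i1
      have h5 := InGroup.congr h3.symm h4
      refine ⟨h5, ?_⟩
      rw [List.map_cons, List.map_cons, List.prod_cons, ← i2]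
      show val (e ++ ([a.1] ++ w.map Subtype.val) ++ e) = val (e ++ [a.1] ++ e) * _
      rw [(hmax.inj _ _ h5 h4).2 h3, hmax.mul _ _ ha i1]
  have hlet : ∀ w, InGroup L e (e ++ w ++ e) → ∃ w' : List B, w'.map Subtype.val = w := by
    rintro w ⟨-, y, h3, -⟩
    have hall : ∀ a ∈ w, a ∈ B := by
      intro a ha
      obtain ⟨s, t, rfl⟩ := List.append_of_mem ha
      refine hfac (e ++ s) [a] (t ++ e ++ y) ?_
      simpa only [List.append_assoc, List.singleton_append, List.cons_append,
        List.nil_append] using h3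
    refine ⟨w.attach.map (fun a => (⟨a.1, hall a.1 a.2⟩ : B)), ?_⟩
    simp
  set E' : Set (List A) := {w | InGroup L e (e ++ w ++ e) ∧ val (e ++ w ++ e) = 1} with hE'def
  have hmemE : ∀ u v, SynEq L u v → u ∈ E' → v ∈ E' := by
    rintro u v h ⟨k1, k2⟩
    have k3 := h.ctx e e
    have k4 := InGroup.congr k3 k1
    exact ⟨k4, by rw [← (hmax.inj _ _ k1 k4).2 k3]; exact k2⟩
  have hsat : ∀ u v, SynEq L u v → SynEq E' u v := fun u v h x y =>
    ⟨hmemE _ _ (h.ctx x y), hmemE _ _ (h.ctx x y).symm⟩
  have hP : ∀ w, InGroup L e w → (w ∈ E' ↔ val w = 1) := by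
    intro w hw
    have k4 := InGroup.congr hw.1.symm hw
    have k5 := (hmax.inj _ _ k4 hw).2 hw.1
    constructor
    · rintro ⟨-, k2⟩
      rw [← k5]; exact k2
    · intro k2
      exact ⟨k4, by rw [k5]; exact k2⟩
  have hres : {w : List B | (w.map φ).prod = 1} = {w : List B | w.map Subtype.val ∈ E'} := by
    ext w
    constructor
    · intro h
      exact ⟨(hB w).1, (hB w).2.trans h⟩
    · rintro ⟨-, h⟩
      exact (hB w).2.symm.trans h
  have himg : List.map Subtype.val '' {w : List B | (w.map φ).prod = 1} = E' := by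
    rw [hres]
    ext w
    constructor
    · rintro ⟨v, hv, rfl⟩
      exact hv
    · intro hw
      obtain ⟨v, rfl⟩ := hlet w hw.1
      exact ⟨v, hw, rfl⟩
  have honto : ∀ x : G, ∃ w : List B, (w.map φ).prod = x := by
    intro x
    obtain ⟨w, hw, hw1⟩ := hmax.onto x
    have k4 := InGroup.congr hw.1.symm hw
    obtain ⟨v, rfl⟩ := hlet w k4
    refine ⟨v, ?_⟩
    rw [← (hB v).2, (hmax.inj _ _ k4 hw).2 hw.1, hw1]
  exact ⟨honto, E', hsat, hP, hres, himg⟩

/-- one direction at one idempotent -/
theorem language_le {A : Type} [Finite A] {L : Set (List A)} (hR : RectGroups L) {n : ℕ}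
    (h : Ht (n + 1) L) {G : Type} [Group G] [Nontrivial G] {e : List A} {val : List A → G}
    (hmax : IsMaxSubgroup L e val) : Ht (n + 1) (groupLanguage L e val) := by
  obtain ⟨-, E', hsat, -, hres, -⟩ := local_facts h.finData hR hmax
  rw [hres]
  exact ht_restrict (recognised h hsat)

/-- if `L` has not height `n + 1`, then neither has one of the group languages -/
theorem language_ge {A : Type} [Finite A] {L : Set (List A)} (hL : FinData L)
    (hR : RectGroups L) {n : ℕ} (h1 : ¬ Ht (n + 1) L) :
    ∃ (G : Type) (_ : Group G) (_ : Finite G) (_ : Nontrivial G) (e : List A)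
      (val : List A → G), IsMaxSubgroup L e val ∧ ¬ Ht (n + 1) (groupLanguage L e val) := by
  classical
  obtain ⟨G, iG, iF, e, val, hmax, g, hg1, hg⟩ := invisible hL h1
  have iN : Nontrivial G := ⟨g, 1, hg1⟩
  refine ⟨G, iG, iF, iN, e, val, hmax, fun hB => ?_⟩
  obtain ⟨-, E', hsat, hP, hres, himg⟩ := local_facts hL hR hmax
  have hE : Ht (n + 1) E' := by
    rw [← himg]
    exact ht_extend hB
  obtain ⟨F, hF, hH, habs⟩ := hE.abs n rfl
  obtain ⟨w, w', hw, hw', e1, e2, hww⟩ := hg F hF hH
  apply hg1
  rw [← e2, ← e1]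
  symm
  refine Pool.Agent.GSHR.val_eq_of_stars (L := E') (P := {w | InGroup L e w}) hF
    (fun K hK => ((hH K hK).star).finData) habs
    (fun u hu v hv => ⟨inGroup_mul hmax.idem hu hv, hmax.mul u v hu hv⟩)
    (fun u hu v hv huv => ?_) hw hw' ?_
  · obtain ⟨q, hq, hq1⟩ := hmax.onto (val u)⁻¹
    have k1 := huv E' rfl q []
    rw [List.append_nil, List.append_nil, hP _ (inGroup_mul hmax.idem hq hu),
      hP _ (inGroup_mul hmax.idem hq hv), hmax.mul _ _ hq hu, hmax.mul _ _ hq hv, hq1,
      inv_mul_cancel, inv_mul_eq_one] at k1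
    exact k1.1 rfl
  · rintro _ ⟨K, hK, rfl⟩ x y
    exact hww K hK x y

/-- Let `L` be a language with finite syntactic monoid over a finite alphabet `A` such that every
regular D-class of the syntactic monoid that contains a nontrivial group is a rectangular group
(this holds if the monoid belongs to `DO`). For an idempotent `e` with nontrivial maximal
subgroup `G` let `L_e` be the group language at `e` (`groupLanguage L e val`), over the alphabet
of the letters `a` with `eae` in `G`.
(1) The syntactic monoid of `L_e` is the group `G`: its syntactic congruence is `φ u = φ v` for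
the morphism `φ` with `φ a = eae`, and `φ` is onto `G`.
(2) For every `n`, `L` has generalized star height at most `n + 1` if and only if all the group
languages `L_e` have generalized star height at most `n + 1`.
(3) If `L` has generalized star height exactly `n + 2`, then so has one of the group languages
`L_e`. -/
theorem result {A : Type} [Finite A] (L : Set (List A))
    (hL : ∃ (D : Type) (_ : Finite D) (d : List A → D), ∀ u v, d u = d v → SynEq L u v)
    (hR : RectGroups L) :
    (∀ (G : Type) [Group G] [Nontrivial G] (e : List A) (val : List A → G),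
      IsMaxSubgroup L e val →
        (∀ g : G, ∃ w : List (letters L e),
          (w.map (fun a : letters L e => val (e ++ [a.1] ++ e))).prod = g) ∧
        ∀ u v : List (letters L e), SynEq (groupLanguage L e val) u v ↔
          (u.map (fun a : letters L e => val (e ++ [a.1] ++ e))).prod =
            (v.map (fun a : letters L e => val (e ++ [a.1] ++ e))).prod) ∧
    (∀ n : ℕ, Ht (n + 1) L ↔
      ∀ (G : Type) [Group G] [Nontrivial G] (e : List A) (val : List A → G),
        IsMaxSubgroup L e val → Ht (n + 1) (groupLanguage L e val)) ∧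
    (∀ n : ℕ, Ht (n + 2) L → ¬ Ht (n + 1) L →
      ∃ (G : Type) (_ : Group G) (_ : Finite G) (_ : Nontrivial G) (e : List A)
        (val : List A → G), IsMaxSubgroup L e val ∧
          Ht (n + 2) (groupLanguage L e val) ∧ ¬ Ht (n + 1) (groupLanguage L e val)) := by
  have hL' : FinData L := by
    obtain ⟨D, hD, d, hd⟩ := hL
    exact ⟨D, hD, d, fun u v huv x y => ((hd u v huv) x y).1⟩
  refine ⟨?_, ?_, ?_⟩
  · intro G _ _ e val hmax
    have h := (local_facts hL' hR hmax).1
    exact ⟨h, synEq_group _ h⟩
  · intro n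
    constructor
    · intro h G _ _ e val hmax
      exact language_le hR h hmax
    · intro h
      by_contra hno
      obtain ⟨G, iG, iF, iN, e, val, hmax, h1⟩ := language_ge hL' hR hno
      exact h1 (h G e val hmax)
  · intro n h2 h1
    obtain ⟨G, iG, iF, iN, e, val, hmax, h3⟩ := language_ge hL' hR h1
    exact ⟨G, iG, iF, iN, e, val, hmax, language_le hR h2 hmax, h3⟩

end Pool.Agent.Results.MP_1ffbee_lc.OrthodoxReduction
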