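import Pool.Agent.GSHR.Crit

set_option autoImplicit false

namespace Pool.Agent.Results.MP_1ffbee_lc.SubgroupCriterion

open Pool.Agent.GSH
open scoped commutatorElement

/-- `M/N` is a chief factor of `G`. -/
def IsChief {G : Type} [Group G] (N M : Subgroup G) : Prop :=
  N.Normal ∧ M.Normal ∧ N < M ∧
    ∀ R : Subgroup G, R.Normal → N ≤ R → R ≤ M → R = N ∨ R = M

/-- the two words have the same contexts in `L` (syntactic congruence of `L`) -/
def SynEq {A : Type} (L : Set (List A)) (w w' : List A) : Prop :=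
  ∀ x y : List A, x ++ w ++ y ∈ L ↔ x ++ w' ++ y ∈ L

/-- The class of the word `w` belongs to the maximal subgroup with identity (the class of) `e`
of the syntactic monoid of `L`; here `e` is idempotent modulo `L`. -/
def InGroup {A : Type} (L : Set (List A)) (e w : List A) : Prop :=
  SynEq L (e ++ w ++ e) w ∧ ∃ y : List A, SynEq L (w ++ y) e ∧ SynEq L (y ++ w) e

/-- `e` is idempotent modulo `L`, and `val` identifies the maximal subgroup with identity `e` of
the syntactic monoid of `L` with the group `G`. -/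
structure IsMaxSubgroup {A G : Type} [Group G] (L : Set (List A)) (e : List A)
    (val : List A → G) : Prop where
  idem : SynEq L (e ++ e) e
  mul : ∀ w w' : List A, InGroup L e w → InGroup L e w' → val (w ++ w') = val w * val w'
  onto : ∀ g : G, ∃ w : List A, InGroup L e w ∧ val w = g
  inj : ∀ w w' : List A, InGroup L e w → InGroup L e w' → (val w = val w' ↔ SynEq L w w')

section groups

variable {G : Type} [Group G]

theorem exists_chief [Finite G] {R C : Subgroup G} (hR : R.Normal) (hC : C.Normal) (h : R < C) :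
    ∃ M, IsChief R M ∧ M ≤ C := by
  obtain ⟨M, ⟨hMn, hRM, hMC⟩, hmin⟩ := (wellFounded_lt (α := Subgroup G)).has_min
    {M | M.Normal ∧ R < M ∧ M ≤ C} ⟨C, hC, h, le_rfl⟩
  refine ⟨M, ⟨hR, hMn, hRM, fun Q hQ hRQ hQM => ?_⟩, hMC⟩
  by_contra hne
  push Not at hne
  exact hmin Q ⟨hQ, lt_of_le_of_ne hRQ (Ne.symm hne.1), hQM.trans hMC⟩
    (lt_of_le_of_ne hQM hne.2)

end groups

/-- the local monoid at an idempotent -/
def LocM {M : Type} [Monoid M] (x : M) : Type := {y : M // x * y = y ∧ y * x = y}

section local_monoid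

variable {M : Type} [Monoid M] {x : M}

/-- the local monoid structure -/
@[reducible] def locMonoid (hx : x * x = x) : Monoid (LocM x) where
  mul y z := ⟨y.1 * z.1, by rw [← mul_assoc, y.2.1], by rw [mul_assoc, z.2.2]⟩
  one := ⟨x, hx, hx⟩
  mul_assoc y z w := Subtype.ext (mul_assoc _ _ _)
  one_mul y := Subtype.ext y.2.1
  mul_one y := Subtype.ext y.2.2

end local_monoid

theorem synEq_iff {A : Type} {L : Set (List A)} {w w' : List A} :
    SynEq L w w' ↔ Pool.Agent.GSHR.cls {L} w = Pool.Agent.GSHR.cls {L} w' := by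
  rw [Pool.Agent.GSHR.cls_eq]
  constructor
  · rintro h _ rfl x y
    exact h x y
  · intro h x y
    exact h L rfl x y

/-- every idempotent of a finite syntactic monoid has its maximal subgroup -/
theorem exists_max {A : Type} {L : Set (List A)} (hL : FinData L) {e : List A}
    (he : SynEq L (e ++ e) e) :
    ∃ (G : Type) (_ : Group G) (_ : Finite G) (val : List A → G), IsMaxSubgroup L e val := by
  classical
  have hfin : Finite (Pool.Agent.GSHR.Syn ({L} : Set (Set (List A)))) :=
    Pool.Agent.GSHR.syn_finite (Set.finite_singleton _) (by rintro _ rfl; exact hL)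
  set x := Pool.Agent.GSHR.cls {L} e with hxdef
  have hx : x * x = x := by
    rw [hxdef, ← Pool.Agent.GSHR.cls_append, ← synEq_iff]
    exact he
  let mon : Monoid (LocM x) := locMonoid hx
  have hfinL : Finite (LocM x) := by unfold LocM; infer_instance
  have key : ∀ w, InGroup L e w ↔ ∃ g : (LocM x)ˣ, g.1.1 = Pool.Agent.GSHR.cls {L} w := by
    intro w
    constructor
    · rintro ⟨h1, y, h2, h3⟩
      rw [synEq_iff] at h1 h2 h3
      simp only [Pool.Agent.GSHR.cls_append, ← hxdef] at h1 h2 h3
      set a := Pool.Agent.GSHR.cls {L} w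
      set z := Pool.Agent.GSHR.cls {L} y
      have ha1 : x * a = a := by
        conv_lhs => rw [← h1]
        rw [← mul_assoc, ← mul_assoc, hx, h1]
      have ha2 : a * x = a := by
        conv_lhs => rw [← h1]
        rw [mul_assoc, hx, h1]
      refine ⟨⟨⟨a, ha1, ha2⟩, ⟨x * z * x, ?_, ?_⟩, ?_, ?_⟩, rfl⟩
      · rw [← mul_assoc, ← mul_assoc, hx]
      · rw [mul_assoc, hx]
      · apply Subtype.ext
        show a * (x * z * x) = x
        rw [← mul_assoc, ← mul_assoc, ha2, h2, hx]
      · apply Subtype.ext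
        show x * z * x * a = x
        rw [mul_assoc, ha1, mul_assoc, h3, hx]
    · rintro ⟨g, hg⟩
      obtain ⟨y, hy⟩ := Pool.Agent.GSHR.cls_surj (g⁻¹).1.1
      refine ⟨?_, y, ?_, ?_⟩
      · rw [synEq_iff]
        simp only [Pool.Agent.GSHR.cls_append, ← hxdef]
        rw [← hg, g.1.2.1, g.1.2.2]
      · rw [synEq_iff]
        simp only [Pool.Agent.GSHR.cls_append, ← hxdef]
        rw [← hg, hy]
        exact congrArg Subtype.val g.mul_inv
      · rw [synEq_iff]
        simp only [Pool.Agent.GSHR.cls_append, ← hxdef]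
        rw [← hg, hy]
        exact congrArg Subtype.val g.inv_mul
  let val : List A → (LocM x)ˣ := fun w =>
    if h : ∃ g : (LocM x)ˣ, g.1.1 = Pool.Agent.GSHR.cls {L} w then h.choose else 1
  have hval : ∀ w, InGroup L e w → (val w).1.1 = Pool.Agent.GSHR.cls {L} w := by
    intro w hw
    have h := (key w).1 hw
    show (if h : ∃ g : (LocM x)ˣ, g.1.1 = Pool.Agent.GSHR.cls {L} w
      then h.choose else 1).1.1 = _
    rw [dif_pos h]
    exact h.choose_spec
  have hext : ∀ g g' : (LocM x)ˣ, g.1.1 = g'.1.1 → g = g' := fun g g' h =>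
    Units.ext (Subtype.ext h)
  refine ⟨(LocM x)ˣ, inferInstance, inferInstance, val, ⟨he, ?_, ?_, ?_⟩⟩
  · intro w w' hw hw'
    apply hext
    have hww : InGroup L e (w ++ w') := by
      rw [key]
      obtain ⟨g, hg⟩ := (key w).1 hw
      obtain ⟨g', hg'⟩ := (key w').1 hw'
      refine ⟨g * g', ?_⟩
      show g.1.1 * g'.1.1 = _
      rw [hg, hg', Pool.Agent.GSHR.cls_append]
    rw [hval _ hww]
    show _ = (val w).1.1 * (val w').1.1
    rw [hval _ hw, hval _ hw', Pool.Agent.GSHR.cls_append]
  · intro g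
    obtain ⟨w, hw⟩ := Pool.Agent.GSHR.cls_surj g.1.1
    have h1 : InGroup L e w := (key w).2 ⟨g, hw.symm⟩
    exact ⟨w, h1, hext _ _ (by rw [hval _ h1, hw])⟩
  · intro w w' hw hw'
    rw [synEq_iff, ← hval w hw, ← hval w' hw']
    exact ⟨fun h => by rw [h], fun h => hext _ _ h⟩

theorem inGroup_mul {A : Type} {L : Set (List A)} {e : List A} (hidem : SynEq L (e ++ e) e)
    {u v : List A} (hu : InGroup L e u) (hv : InGroup L e v) : InGroup L e (u ++ v) := by
  obtain ⟨hu1, y, hu2, hu3⟩ := hu
  obtain ⟨hv1, z, hv2, hv3⟩ := hv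
  have he := hidem
  rw [synEq_iff] at hu1 hu2 hu3 hv1 hv2 hv3 he
  simp only [Pool.Agent.GSHR.cls_append] at hu1 hu2 hu3 hv1 hv2 hv3 he
  set x := Pool.Agent.GSHR.cls {L} e
  set a := Pool.Agent.GSHR.cls {L} u
  set b := Pool.Agent.GSHR.cls {L} v
  have ha1 : x * a = a := by
    conv_lhs => rw [← hu1]
    rw [← mul_assoc, ← mul_assoc, he, hu1]
  have ha2 : a * x = a := by
    conv_lhs => rw [← hu1]
    rw [mul_assoc, he, hu1]
  have hb1 : x * b = b := by
    conv_lhs => rw [← hv1]
    rw [← mul_assoc, ← mul_assoc, he, hv1]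
  have hb2 : b * x = b := by
    conv_lhs => rw [← hv1]
    rw [mul_assoc, he, hv1]
  refine ⟨?_, z ++ e ++ y, ?_, ?_⟩
  · rw [synEq_iff]
    simp only [Pool.Agent.GSHR.cls_append]
    rw [← mul_assoc, ha1, mul_assoc, hb2]
  · rw [synEq_iff]
    simp only [Pool.Agent.GSHR.cls_append]
    calc a * b * (Pool.Agent.GSHR.cls {L} z * x * Pool.Agent.GSHR.cls {L} y)
        = a * (b * Pool.Agent.GSHR.cls {L} z) * x * Pool.Agent.GSHR.cls {L} y := by
          simp only [mul_assoc]
      _ = x := by rw [hv2, mul_assoc a, he, ha2, hu2]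
  · rw [synEq_iff]
    simp only [Pool.Agent.GSHR.cls_append]
    calc Pool.Agent.GSHR.cls {L} z * x * Pool.Agent.GSHR.cls {L} y * (a * b)
        = Pool.Agent.GSHR.cls {L} z * (x * (Pool.Agent.GSHR.cls {L} y * a)) * b := by
          simp only [mul_assoc]
      _ = x := by rw [hu3, he, mul_assoc, hb1, hv3]

theorem finite_of_max {A : Type} {L : Set (List A)} (hL : FinData L) {G : Type} [Group G]
    {e : List A} {val : List A → G} (hmax : IsMaxSubgroup L e val) : Finite G := by
  have hfin : Finite (Pool.Agent.GSHR.Syn ({L} : Set (Set (List A)))) :=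
    Pool.Agent.GSHR.syn_finite (Set.finite_singleton _) (by rintro _ rfl; exact hL)
  choose w hw1 hw2 using hmax.onto
  refine Finite.of_injective (fun g => Pool.Agent.GSHR.cls {L} (w g)) ?_
  intro g g' h
  have h1 := (hmax.inj _ _ (hw1 g) (hw1 g')).2 (synEq_iff.2 h)
  rwa [hw2, hw2] at h1

theorem chief_clause {A : Type} {n : ℕ} (G : Type) [Group G] (L P : Set (List A))
    (val : List A → G) (h : Ht (n + 1) L)
    (hmul : ∀ u ∈ P, ∀ v ∈ P, u ++ v ∈ P ∧ val (u ++ v) = val u * val v)
    (hsurj : ∀ g : G, ∃ w ∈ P, val w = g)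
    (hval : ∀ u ∈ P, ∀ v ∈ P, SynEq L u v → val u = val v)
    (N M : Subgroup G) (hNM : IsChief N M) :
    ∃ K : Set (List A), Ht n K ∧ ∀ w ∈ P, ∀ w' ∈ P, SynEq (star K) w w' →
      ∀ m ∈ M, ⁅(val w)⁻¹ * val w', m⁆ ∈ N := by
  obtain ⟨K, hK, h4⟩ := Pool.Agent.GSHR.chief_divisor h hmul hsurj
    (fun u hu v hv huv => hval u hu v hv (fun x y => huv L rfl x y))
    hNM.1 hNM.2.1 hNM.2.2.1 hNM.2.2.2
  refine ⟨K, hK, fun w hw w' hw' hww m hm => ?_⟩
  have h5 := h4 w hw w' hw' (by rintro _ rfl x y; exact hww x y) m hm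
  rw [commutatorElement_def]
  exact h5

theorem criterion_all {A : Type} [Finite A] {n : ℕ} {L : Set (List A)} (hL : FinData L)
    (hR : ∀ (G : Type) [Group G] (e : List A) (val : List A → G), IsMaxSubgroup L e val →
      ∃ F : Set (Set (List A)), F.Finite ∧ (∀ K ∈ F, Ht n K) ∧
        ∀ w w' : List A, InGroup L e w → InGroup L e w' →
          (∀ K ∈ F, SynEq (star K) w w') → val w = val w') : Ht (n + 1) L := by
  classical
  have hfin : Finite (Pool.Agent.GSHR.Syn ({L} : Set (Set (List A)))) :=
    Pool.Agent.GSHR.syn_finite (Set.finite_singleton _) (by rintro _ rfl; exact hL)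
  -- one representing word for each idempotent
  let E : Type := {x : Pool.Agent.GSHR.Syn ({L} : Set (Set (List A))) // x * x = x}
  have hw : ∀ x : E, ∃ e : List A, Pool.Agent.GSHR.cls {L} e = x.1 := fun x =>
    Pool.Agent.GSHR.cls_surj x.1
  choose wd hwd using hw
  have hmax : ∀ x : E, ∃ (G : Type) (_ : Group G) (_ : Finite G) (val : List A → G),
      IsMaxSubgroup L (wd x) val := by
    intro x
    apply exists_max hL
    rw [synEq_iff, Pool.Agent.GSHR.cls_append, hwd, x.2]
  choose G hG hGf val hval using hmax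
  choose F hF1 hF2 hF3 using fun x : E => hR (G x) (wd x) (val x) (hval x)
  have hEfin : Finite E := by show Finite {x // _}; infer_instance
  refine Pool.Agent.GSHR.criterion hL (F := ⋃ x : E, F x) (Set.finite_iUnion hF1) (by
    intro K hK
    obtain ⟨x, hx⟩ := Set.mem_iUnion.1 hK
    exact hF2 x K hx) ?_
  intro u hu
  obtain ⟨k, hk, hk2⟩ := exists_idem_pow (S := {L}) (Set.finite_singleton _)
    (by rintro _ rfl; exact hL) u
  obtain ⟨k, rfl⟩ : ∃ d, k = d + 1 := ⟨k - 1, by omega⟩
  refine ⟨k + 1, ?_⟩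
  set a := Pool.Agent.GSHR.cls {L} u with ha
  have hak : a ^ (k + 1) * a ^ (k + 1) = a ^ (k + 1) := by
    have := Pool.Agent.GSHR.cls_eq.2 hk2
    rw [Pool.Agent.GSHR.cls_append, Pool.Agent.GSHR.cls_rep] at this
    exact this.symm
  let x : E := ⟨a ^ (k + 1), hak⟩
  have hx : Pool.Agent.GSHR.cls {L} (wd x) = a ^ (k + 1) := hwd x
  have g1 : InGroup L (wd x) (rep (k + 1) u) := by
    refine ⟨?_, rep (k + 1) u, ?_, ?_⟩
    · rw [synEq_iff]
      simp only [Pool.Agent.GSHR.cls_append, Pool.Agent.GSHR.cls_rep, hx]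
      rw [hak, hak]
    · rw [synEq_iff]
      simp only [Pool.Agent.GSHR.cls_append, Pool.Agent.GSHR.cls_rep, hx]
      exact hak
    · rw [synEq_iff]
      simp only [Pool.Agent.GSHR.cls_append, Pool.Agent.GSHR.cls_rep, hx]
      exact hak
  have hpow : ∀ j, a ^ (k + 1) * a ^ (k + 1 + j) = a ^ (k + 1 + j) := by
    intro j
    rw [pow_add a (k + 1) j, ← mul_assoc, hak]
  have hpow' : ∀ j, a ^ (k + 1 + j) * a ^ (k + 1) = a ^ (k + 1 + j) := by
    intro j
    rw [← pow_add, add_comm (k + 1 + j) (k + 1), pow_add, hpow]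
  have g2 : InGroup L (wd x) (rep (k + 1 + 1) u) := by
    refine ⟨?_, rep (k + 1 + k) u, ?_, ?_⟩
    · rw [synEq_iff]
      simp only [Pool.Agent.GSHR.cls_append, Pool.Agent.GSHR.cls_rep, hx]
      rw [hpow 1, hpow' 1]
    · rw [synEq_iff]
      simp only [Pool.Agent.GSHR.cls_append, Pool.Agent.GSHR.cls_rep, hx]
      rw [← pow_add, show k + 1 + 1 + (k + 1 + k) = (k + 1) + (k + 1) + (k + 1) by ring,
        pow_add, pow_add, hak, hak]
    · rw [synEq_iff]
      simp only [Pool.Agent.GSHR.cls_append, Pool.Agent.GSHR.cls_rep, hx]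
      rw [← pow_add, show k + 1 + k + (k + 1 + 1) = (k + 1) + (k + 1) + (k + 1) by ring,
        pow_add, pow_add, hak, hak]
  have h1 : val x (rep (k + 1) u) = val x (rep (k + 1 + 1) u) := by
    refine hF3 x _ _ g1 g2 (fun K hK y z => ?_)
    have hc : Cg (star '' (⋃ x : E, F x)) (rep (k + 1) u) (rep (k + 1 + 1) u) := by
      rw [rep_succ (k + 1), rep_succ k, ← List.append_assoc]
      exact hu.append (Cg.refl _ _)
    exact hc (star K) ⟨K, Set.mem_iUnion.2 ⟨x, hK⟩, rfl⟩ y z
  have h2 := ((hval x).inj _ _ g1 g2).1 h1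
  rintro _ rfl y z
  exact (h2 y z).symm

/-- If a finite family of stars does not identify, for any minimal normal subgroup `M` of `G`,
words of value `1` with words of every value in `M`, then it determines the value. -/
theorem val_eq_of_minimal {A G : Type} [Group G] [Finite G] {L : Set (List A)} {e : List A}
    {val : List A → G} (hmax : IsMaxSubgroup L e val) {F : Set (Set (List A))}
    (hF : ∀ M : Subgroup G, IsChief ⊥ M →
      ∃ m ∈ M, ∀ w w' : List A, InGroup L e w → InGroup L e w' → val w = 1 → val w' = m →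
        ∃ K ∈ F, ¬ SynEq (star K) w w')
    {w w' : List A} (hw : InGroup L e w) (hw' : InGroup L e w')
    (hww : ∀ K ∈ F, SynEq (star K) w w') : val w = val w' := by
  classical
  have hcong : ∀ {K : Set (List A)} {u u' : List A} (x y : List A), SynEq (star K) u u' →
      SynEq (star K) (x ++ u ++ y) (x ++ u' ++ y) := by
    intro K u u' x y h a b
    have := h (a ++ x) (y ++ b)
    simpa only [List.append_assoc] using this
  have htrans : ∀ {K : Set (List A)} {u v z : List A}, SynEq (star K) u v →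
      SynEq (star K) v z → SynEq (star K) u z := fun h1 h2 a b => (h1 a b).trans (h2 a b)
  let N : Subgroup G :=
    { carrier := {g | ∃ u u', InGroup L e u ∧ InGroup L e u' ∧ val u = 1 ∧ val u' = g ∧
        ∀ K ∈ F, SynEq (star K) u u'}
      mul_mem' := by
        rintro a b ⟨u, u', hu, hu', h1, h2, h3⟩ ⟨v, v', hv, hv', g1, g2, g3⟩
        refine ⟨u ++ v, u' ++ v', inGroup_mul hmax.idem hu hv, inGroup_mul hmax.idem hu' hv',
          by rw [hmax.mul _ _ hu hv, h1, g1, mul_one], by rw [hmax.mul _ _ hu' hv', h2, g2], ?_⟩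
        intro K hK
        have e1 := hcong [] v (h3 K hK)
        have e2 := hcong u' [] (g3 K hK)
        simp only [List.nil_append, List.append_nil] at e1 e2
        exact htrans e1 e2
      one_mem' := by
        obtain ⟨u, hu, h1⟩ := hmax.onto 1
        exact ⟨u, u, hu, hu, h1, h1, fun K _ a b => Iff.rfl⟩
      inv_mem' := by
        rintro a ⟨u, u', hu, hu', h1, h2, h3⟩
        obtain ⟨v, hv, g1⟩ := hmax.onto a⁻¹
        refine ⟨v ++ u', v ++ u, inGroup_mul hmax.idem hv hu', inGroup_mul hmax.idem hv hu,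
          by rw [hmax.mul _ _ hv hu', h2, g1, inv_mul_cancel],
          by rw [hmax.mul _ _ hv hu, h1, g1, mul_one], ?_⟩
        intro K hK
        have e2 := hcong v [] (h3 K hK)
        simp only [List.append_nil] at e2
        exact fun a b => (e2 a b).symm }
  have hN : N.Normal := by
    refine ⟨?_⟩
    rintro a ⟨u, u', hu, hu', h1, h2, h3⟩ c
    obtain ⟨x, hx, x1⟩ := hmax.onto c
    obtain ⟨y, hy, y1⟩ := hmax.onto c⁻¹
    have i1 := inGroup_mul hmax.idem hx hu
    have i2 := inGroup_mul hmax.idem hx hu'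
    exact ⟨x ++ u ++ y, x ++ u' ++ y, inGroup_mul hmax.idem i1 hy,
      inGroup_mul hmax.idem i2 hy,
      by rw [hmax.mul _ _ i1 hy, hmax.mul _ _ hx hu, h1, x1, y1, mul_one, mul_inv_cancel],
      by rw [hmax.mul _ _ i2 hy, hmax.mul _ _ hx hu', h2, x1, y1],
      fun K hK => hcong x y (h3 K hK)⟩
  have hbot : N = ⊥ := by
    by_contra hne
    obtain ⟨M, hM, hMN⟩ := exists_chief (R := ⊥) (C := N) inferInstance hN
      (bot_lt_iff_ne_bot.2 hne)
    obtain ⟨m, hm, h⟩ := hF M hM
    obtain ⟨u, u', hu, hu', h1, h2, h3⟩ := hMN hm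
    obtain ⟨K, hK, hK2⟩ := h u u' hu hu' h1 h2
    exact hK2 (h3 K hK)
  obtain ⟨v, hv, g1⟩ := hmax.onto (val w)⁻¹
  have hmem : (val w)⁻¹ * val w' ∈ N := by
    refine ⟨v ++ w, v ++ w', inGroup_mul hmax.idem hv hw, inGroup_mul hmax.idem hv hw',
      by rw [hmax.mul _ _ hv hw, g1, inv_mul_cancel], by rw [hmax.mul _ _ hv hw', g1], ?_⟩
    intro K hK
    have e2 := hcong v [] (hww K hK)
    simpa only [List.append_nil] using e2
  rw [hbot, Subgroup.mem_bot, inv_mul_eq_one] at hmem
  exact hmem

/-- (1) For a language `L` with finite syntactic monoid over a finite alphabet the following are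
equivalent. (a) `L` has generalized star height at most `n + 1`. (b) For every maximal subgroup
`G` of the syntactic monoid there are finitely many languages of height at most `n` such that
the syntactic congruences of their stars jointly determine the class of the words whose class
lies in `G`. (c) For every maximal subgroup `G` and every minimal normal subgroup `M` of `G`:
if `M` is non-abelian, there is a single language `K` of height at most `n` such that the
syntactic congruence of `K*` determines, for the words whose class lies in `G`, the class modulo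
the centraliser of `M`; if `M` is abelian, there are finitely many languages of height at most
`n` and an element `m` of `M` such that the syntactic congruences of their stars tell every word
of class `1` from every word of class `m`.
(2) Let `L` be any language of height at most `n + 1` and let the finite group `G` divide the
syntactic monoid of `L`: `P` is a subsemigroup of `A*` and `val` maps `P` onto `G`,
multiplicatively, so that words of `P` with the same contexts in `L` have the same value. Then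
for every chief factor `M/N` of `G` there is a single language `K` of height at most `n` such
that the syntactic congruence of `K*` determines the value of the words of `P` modulo the
centraliser of `M/N`. -/
theorem result {A : Type} (n : ℕ) :
    (∀ [Finite A] (L : Set (List A)),
      (∃ (D : Type) (_ : Finite D) (d : List A → D), ∀ u v, d u = d v → SynEq L u v) →
      List.TFAE [
        Ht (n + 1) L,
        ∀ (G : Type) [Group G] (e : List A) (val : List A → G), IsMaxSubgroup L e val →
          ∃ F : Set (Set (List A)), F.Finite ∧ (∀ K ∈ F, Ht n K) ∧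
            ∀ w w' : List A, InGroup L e w → InGroup L e w' →
              (∀ K ∈ F, SynEq (star K) w w') → val w = val w',
        ∀ (G : Type) [Group G] (e : List A) (val : List A → G), IsMaxSubgroup L e val →
          ∀ M : Subgroup G, IsChief ⊥ M →
            ((∃ a ∈ M, ∃ b ∈ M, a * b ≠ b * a) →
              ∃ K : Set (List A), Ht n K ∧
                ∀ w w' : List A, InGroup L e w → InGroup L e w' → SynEq (star K) w w' →
                  ∀ m ∈ M, ⁅(val w)⁻¹ * val w', m⁆ = 1) ∧
            ((∀ a ∈ M, ∀ b ∈ M, a * b = b * a) →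
              ∃ F : Set (Set (List A)), F.Finite ∧ (∀ K ∈ F, Ht n K) ∧
                ∃ m ∈ M, ∀ w w' : List A, InGroup L e w → InGroup L e w' →
                  val w = 1 → val w' = m → ∃ K ∈ F, ¬ SynEq (star K) w w')]) ∧
    (∀ (G : Type) [Group G] [Finite G] (L P : Set (List A)) (val : List A → G), Ht (n + 1) L →
      (∀ u ∈ P, ∀ v ∈ P, u ++ v ∈ P ∧ val (u ++ v) = val u * val v) →
      (∀ g : G, ∃ w ∈ P, val w = g) →
      (∀ u ∈ P, ∀ v ∈ P, SynEq L u v → val u = val v) →
      ∀ N M : Subgroup G, IsChief N M → ∃ K : Set (List A), Ht n K ∧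
        ∀ w ∈ P, ∀ w' ∈ P, SynEq (star K) w w' →
          ∀ m ∈ M, ⁅(val w)⁻¹ * val w', m⁆ ∈ N) := by
  classical
  refine ⟨?_, fun G _ _ L P val h hmul hsurj hval N M hNM =>
    chief_clause G L P val h hmul hsurj hval N M hNM⟩
  intro _ L hreg
  have hL : FinData L := by
    obtain ⟨D, hD, d, hd⟩ := hreg
    exact ⟨D, hD, d, fun u v huv x y => ((hd u v huv) x y).1⟩
  have hab : Ht (n + 1) L →
      ∀ (G : Type) [Group G] (e : List A) (val : List A → G), IsMaxSubgroup L e val →
        ∃ F : Set (Set (List A)), F.Finite ∧ (∀ K ∈ F, Ht n K) ∧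
          ∀ w w' : List A, InGroup L e w → InGroup L e w' →
            (∀ K ∈ F, SynEq (star K) w w') → val w = val w' := by
    intro h G _ e val hmax
    obtain ⟨F, hF, hH, habs⟩ := h.abs n rfl
    refine ⟨F, hF, hH, fun w w' hw hw' hww => ?_⟩
    refine Pool.Agent.GSHR.val_eq_of_stars (L := L) (P := {w | InGroup L e w}) hF
      (fun K hK => ((hH K hK).star).finData) habs
      (fun u hu v hv => ⟨inGroup_mul hmax.idem hu hv, hmax.mul u v hu hv⟩)
      (fun u hu v hv huv => (hmax.inj u v hu hv).2 (fun x y => huv L rfl x y)) hw hw' ?_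
    rintro _ ⟨K, hK, rfl⟩ x y
    exact hww K hK x y
  tfae_have 1 → 2 := hab
  tfae_have 2 → 1 := fun hR => criterion_all hL hR
  tfae_have 1 → 3 := by
    intro h G _ e val hmax M hM
    have hGf := finite_of_max hL hmax
    refine ⟨fun _ => ?_, fun _ => ?_⟩
    · obtain ⟨K, hK, hK2⟩ := chief_clause G L {w | InGroup L e w} val h
        (fun u hu v hv => ⟨inGroup_mul hmax.idem hu hv, hmax.mul u v hu hv⟩)
        (fun g => by obtain ⟨w, hw1, hw2⟩ := hmax.onto g; exact ⟨w, hw1, hw2⟩)
        (fun u hu v hv huv => (hmax.inj u v hu hv).2 huv) ⊥ M hM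
      refine ⟨K, hK, fun w w' hw hw' hww m hm => ?_⟩
      exact Subgroup.mem_bot.1 (hK2 w hw w' hw' hww m hm)
    · obtain ⟨F, hF, hH, hF2⟩ := hab h G e val hmax
      obtain ⟨m, hm, hm1⟩ := SetLike.exists_of_lt hM.2.2.1
      refine ⟨F, hF, hH, m, hm, fun w w' hw hw' h1 h2 => ?_⟩
      by_contra hcon
      push Not at hcon
      apply hm1
      rw [Subgroup.mem_bot, ← h2, ← h1]
      exact (hF2 w w' hw hw' hcon).symm
  tfae_have 3 → 2 := by
    intro hC G _ e val hmax
    have hGf := finite_of_max hL hmax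
    have hK : ∀ M : {M : Subgroup G // IsChief ⊥ M}, ∃ F : Set (Set (List A)), F.Finite ∧
        (∀ K ∈ F, Ht n K) ∧ ∃ m ∈ M.1, ∀ w w' : List A, InGroup L e w → InGroup L e w' →
          val w = 1 → val w' = m → ∃ K ∈ F, ¬ SynEq (star K) w w' := by
      rintro ⟨M, hM⟩
      obtain ⟨c1, c2⟩ := hC G e val hmax M hM
      by_cases hab : ∃ a ∈ M, ∃ b ∈ M, a * b ≠ b * a
      · obtain ⟨K, hK1, hK2⟩ := c1 hab
        obtain ⟨a, ha, b, hb, hne⟩ := hab
        refine ⟨{K}, Set.finite_singleton _, by rintro _ rfl; exact hK1, a, ha, ?_⟩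
        intro w w' hw hw' h1 h2
        refine ⟨K, rfl, fun hcon => hne ?_⟩
        have := hK2 w w' hw hw' hcon b hb
        rw [h1, h2, inv_one, one_mul, commutatorElement_eq_one_iff_mul_comm] at this
        exact this
      · push Not at hab
        exact c2 hab
    choose F hF1 hF2 hF3 using hK
    have : Finite {M : Subgroup G // IsChief ⊥ M} := inferInstance
    refine ⟨⋃ M, F M, Set.finite_iUnion hF1, ?_, ?_⟩
    · intro K hK
      obtain ⟨M, hM⟩ := Set.mem_iUnion.1 hK
      exact hF2 M K hM
    · intro w w' hw hw' hww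
      refine val_eq_of_minimal hmax (F := ⋃ M, F M) ?_ hw hw' hww
      intro M hM
      obtain ⟨m, hm, h⟩ := hF3 ⟨M, hM⟩
      refine ⟨m, hm, fun u u' hu hu' h1 h2 => ?_⟩
      obtain ⟨K, hK, hK2⟩ := h u u' hu hu' h1 h2
      exact ⟨K, Set.mem_iUnion.2 ⟨⟨M, hM⟩, hK⟩, hK2⟩
  tfae_finish

end Pool.Agent.Results.MP_1ffbee_lc.SubgroupCriterion
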